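import Mathlib
import Pool.Agent.TH861.GL3.Defs

/-! Rankin-Selberg data of an automorphic representation over a number field. -/

set_option autoImplicit false

namespace Pool.Agent.TH829.RA

open NumberField IsDedekindDomain Pool.Agent.TH861.GL3

variable {K : Type*} [Field K] [NumberField K] {S : Finset (HeightOneSpectrum (𝓞 K))} {N : ℕ}

/-- `∑_{v ∉ S} ∑_{k ≥ 1} |∑_i γ_{i,v}^k|² / k · q_v^{-ks}`, the logarithm of the partial Rankin-Selberg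
`L`-function `L^S(s, Π × Π~) = ∏_{v ∉ S} ∏_{i,j} (1 - γ_{i,v} conj(γ_{j,v}) q_v^{-s})⁻¹`. -/
noncomputable def logRS (γ : PL S → Fin N → ℂ) (s : ℂ) : ℂ :=
  ∑' x : PL S × ℕ, ((‖∑ i, γ x.1 i ^ (x.2 + 1)‖ ^ 2 / ((x.2 : ℝ) + 1) : ℝ) : ℂ) *
    (((qq x.1.1 : ℕ) : ℂ) ^ (-s)) ^ (x.2 + 1)

/-- Properties of the Rankin-Selberg `L`-function `L(s, Π × Π~)` of an isobaric sum `Π` of unitary cuspidal
automorphic representations, `Π` on `GL_N` over the number field `K`: `γ v`, `v ∉ S`, are the Satake parameters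
of `Π` (or of an unramified twist of `Π_v`), `β v`, `v ∈ S`, and `κ` are the parameters of the local factors of
`L(s, Π × Π~)` at `S` and at infinity, `Q²` is its conductor, and the order of its pole at `s = 1` is at most `r`. -/
structure RankinSelberg (r : ℕ) (γ : PL S → Fin N → ℂ) (β : S → Fin (N ^ 2) → ℂ)
    (κ : Fin (N ^ 2 * Module.finrank ℚ K) → ℂ) (Q : ℝ) : Prop where
  /-- the bound of Jacquet and Shalika -/
  bound : ∀ v i, ‖γ v i‖ < (qq v.1 : ℝ) ^ (1 / 2 : ℝ)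
  /-- absolute convergence for `Re s > 1` -/
  summable : ∀ σ : ℝ, 1 < σ → Summable fun x : PL S × ℕ =>
    ‖∑ i, γ x.1 i ^ (x.2 + 1)‖ ^ 2 / ((x.2 : ℝ) + 1) * (((qq x.1.1 : ℕ) : ℝ) ^ (-σ)) ^ (x.2 + 1)
  /-- the local factors at `S` -/
  ramified : ∀ v i, ‖β v i‖ < (qq v.1 : ℝ)
  /-- the logarithms of the local factors at `S` have nonnegative coefficients -/
  ramified_nonneg : ∀ v (k : ℕ), ∃ t : ℝ, 0 ≤ t ∧ ∑ i, β v i ^ (k + 1) = (t : ℂ)
  /-- the conductor -/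
  one_le : 1 ≤ Q
  /-- the local factors at the infinite places -/
  conj : Multiset.map (fun j => (starRingEnd ℂ) (κ j)) Finset.univ.val =
      Multiset.map κ Finset.univ.val
  re : ∀ j, -1 < (κ j).re
  /-- `F(s) = (s (s - 1))^r L(s, Π × Π~)` is entire and of polynomial growth in vertical strips, and the completed
  function has a functional equation -/
  rs : ∃ (F Ξ : ℂ → ℂ) (ω : ℂ), Differentiable ℂ F ∧ Differentiable ℂ Ξ ∧ ‖ω‖ = 1 ∧
    (∀ a b : ℝ, ∃ (C : ℝ) (A : ℕ), ∀ s : ℂ, a ≤ s.re → s.re ≤ b → ‖F s‖ ≤ C * (1 + |s.im|) ^ A) ∧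
    (∀ s : ℂ, 1 < s.re → F s * ∏ v, ∏ i, (1 - β v i * ((qq v.1 : ℕ) : ℂ) ^ (-s)) =
      (s * (s - 1)) ^ r * Complex.exp (logRS γ s)) ∧
    (∀ s : ℂ, 2 < s.re → Ξ s = F s * ((Q : ℂ) ^ s * ∏ j, Complex.Gammaℝ (s + κ j))) ∧
    ∀ s : ℂ, Ξ (1 - s) = ω * Ξ s

/-- the analytic conductor of `L(s, Π × Π~)` -/
noncomputable def cond {M : ℕ} (κ : Fin M → ℂ) (Q : ℝ) : ℝ := Q ^ 2 * ∏ j, (1 + ‖κ j‖)

end Pool.Agent.TH829.RA
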