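import Mathlib
import Pool.Agent.TH949.LT.Refl

/-! Convexity bound for an entire function with a functional equation. -/

set_option autoImplicit false

namespace Pool.Agent.TH829.RA

open Filter Topology Complex Pool.Agent.TH949.LT

variable {N : ℕ} {κ : Fin N → ℂ} {Q : ℝ} {F : ℂ → ℂ}

/-- the archimedean conductor -/
noncomputable def PK (κ : Fin N → ℂ) : ℝ := ∏ j, (1 + ‖κ j‖)

theorem one_le_PK (κ : Fin N → ℂ) : 1 ≤ PK κ := by
  unfold PK
  calc (1 : ℝ) = ∏ _j : Fin N, (1 : ℝ) := by simp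
    _ ≤ _ := Finset.prod_le_prod (fun _ _ => zero_le_one) fun j _ => by linarith [norm_nonneg (κ j)]

/-- the comparison polynomial -/
noncomputable def PP (r : ℕ) (κ : Fin N → ℂ) (s : ℂ) : ℂ := (s + 3) ^ (2 * r) * ∏ j, (s + κ j + 3) ^ 2

theorem PP_norm (r : ℕ) (κ : Fin N → ℂ) (s : ℂ) :
    ‖PP r κ s‖ = ‖s + 3‖ ^ (2 * r) * ∏ j, ‖s + κ j + 3‖ ^ 2 := by
  unfold PP
  rw [norm_mul, norm_pow, norm_prod]
  simp_rw [norm_pow]

theorem PP_diff (r : ℕ) (κ : Fin N → ℂ) : Differentiable ℂ (PP r κ) := by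
  unfold PP
  refine Differentiable.mul (by fun_prop) ?_
  refine Differentiable.fun_finsetProd fun j _ => ?_
  fun_prop

theorem half_le_z {κ : Fin N → ℂ} (hre : ∀ j, -1 < (κ j).re) {s : ℂ} (hs : -3 / 2 ≤ s.re) (j : Fin N) :
    1 / 2 ≤ ‖s + κ j + 3‖ := by
  have h1 := Complex.re_le_norm (s + κ j + 3)
  have h2 := hre j
  simp only [add_re] at h1
  have : ((3 : ℂ)).re = 3 := by norm_num
  rw [this] at h1
  linarith

theorem PP_low {κ : Fin N → ℂ} (hre : ∀ j, -1 < (κ j).re) (r : ℕ) {s : ℂ} (hs : -3 / 2 ≤ s.re) :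
    (1 / 4 : ℝ) ^ N ≤ ‖PP r κ s‖ := by
  rw [PP_norm]
  have h1 : 1 ≤ ‖s + 3‖ ^ (2 * r) := by
    refine one_le_pow₀ ?_
    have h1 := Complex.re_le_norm (s + 3)
    simp only [add_re] at h1
    have : ((3 : ℂ)).re = 3 := by norm_num
    rw [this] at h1
    linarith
  have h2 : (1 / 4 : ℝ) ^ N ≤ ∏ j, ‖s + κ j + 3‖ ^ 2 := by
    calc (1 / 4 : ℝ) ^ N = ∏ _j : Fin N, (1 / 4 : ℝ) := by simp
      _ ≤ _ := Finset.prod_le_prod (fun _ _ => by norm_num) fun j _ => by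
        have := half_le_z hre hs j
        nlinarith
  nlinarith [show (0 : ℝ) ≤ (1 / 4 : ℝ) ^ N by positivity]

theorem one_add_abs_le {s : ℂ} (hs : -3 / 2 ≤ s.re) : 1 + |s.im| ≤ 2 * ‖s + 3‖ := by
  have h1 := Complex.re_le_norm (s + 3)
  have h2 := Complex.abs_im_le_norm (s + 3)
  simp only [add_re, add_im] at h1 h2
  have e1 : ((3 : ℂ)).re = 3 := by norm_num
  have e2 : ((3 : ℂ)).im = 0 := by norm_num
  rw [e1] at h1
  rw [e2, add_zero] at h2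
  linarith

theorem left_line (h : LData N κ Q F) (r : ℕ) {W : ℝ} (hW : 0 ≤ W)
    (hF : ∀ t : ℝ, ‖F (((5 / 2 : ℝ) : ℂ) + t * I)‖ ≤ W * (1 + |t|) ^ (2 * r)) {s : ℂ} (hs : s.re = -3 / 2) :
    ‖F s‖ ≤ 4 ^ r * 21 ^ N * Q ^ 4 * W * ‖PP r κ s‖ := by
  have hs' : s = ((-3 / 2 : ℝ) : ℂ) + s.im * I := by
    apply Complex.ext
    · simp [hs]
    · simp
  have h1 := norm_F2 h s.im
  rw [← hs'] at h1
  have h2 := hF (-s.im)
  have e1 : ((5 / 2 : ℝ) : ℂ) + ((-s.im : ℝ) : ℂ) * I = ((5 / 2 : ℝ) : ℂ) - s.im * I := by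
    push_cast
    ring
  rw [e1, abs_neg] at h2
  have hs3 : -3 / 2 ≤ s.re := hs.ge
  have h3 : p2 κ s.im ≤ 21 ^ N * ∏ j, ‖s + κ j + 3‖ ^ 2 := by
    unfold p2
    have e2 : (21 : ℝ) ^ N * ∏ j, ‖s + κ j + 3‖ ^ 2 = ∏ j, (21 * ‖s + κ j + 3‖ ^ 2) := by
      rw [Finset.prod_mul_distrib, Finset.prod_const, Finset.card_univ, Fintype.card_fin]
    rw [e2]
    refine Finset.prod_le_prod (fun j _ => by positivity) fun j _ => ?_
    have hz := half_le_z h.re hs3 j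
    have a1 : ‖κ j + ((-3 / 2 : ℝ) : ℂ) + s.im * I‖ ≤ 7 * ‖s + κ j + 3‖ := by
      have e3 : κ j + ((-3 / 2 : ℝ) : ℂ) + s.im * I = (s + κ j + 3) - 3 := by
        conv_rhs => rw [hs']
        ring
      rw [e3]
      refine (norm_sub_le _ _).trans ?_
      have : ‖(3 : ℂ)‖ = 3 := by norm_num
      rw [this]
      linarith
    have a2 : ‖κ j + ((1 / 2 : ℝ) : ℂ) + s.im * I‖ ≤ 3 * ‖s + κ j + 3‖ := by
      have e3 : κ j + ((1 / 2 : ℝ) : ℂ) + s.im * I = (s + κ j + 3) - 1 := by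
        conv_rhs => rw [hs']
        push_cast
        ring
      rw [e3]
      refine (norm_sub_le _ _).trans ?_
      rw [norm_one]
      linarith
    calc _ ≤ (7 * ‖s + κ j + 3‖) * (3 * ‖s + κ j + 3‖) := mul_le_mul a1 a2 (norm_nonneg _) (by positivity)
      _ = _ := by ring
  have h4 : (1 + |s.im|) ^ (2 * r) ≤ 4 ^ r * ‖s + 3‖ ^ (2 * r) := by
    calc (1 + |s.im|) ^ (2 * r) ≤ (2 * ‖s + 3‖) ^ (2 * r) :=
          pow_le_pow_left₀ (by positivity) (one_add_abs_le hs3) _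
      _ = _ := by rw [mul_pow, pow_mul]; norm_num
  have hQ : 0 ≤ Q := by linarith [h.one_le]
  have h5 : (((2 * Real.pi) ^ 2) ^ N)⁻¹ ≤ 1 := by
    apply inv_le_one_of_one_le₀
    apply one_le_pow₀
    nlinarith [Real.pi_gt_three]
  have h6 : 0 ≤ p2 κ s.im := by
    unfold p2
    positivity
  rw [h1, PP_norm]
  calc Q ^ 4 * (((2 * Real.pi) ^ 2) ^ N)⁻¹ * p2 κ s.im * ‖F (((5 / 2 : ℝ) : ℂ) - s.im * I)‖
      ≤ Q ^ 4 * 1 * (21 ^ N * ∏ j, ‖s + κ j + 3‖ ^ 2) * (W * (4 ^ r * ‖s + 3‖ ^ (2 * r))) := by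
        refine mul_le_mul (mul_le_mul (mul_le_mul_of_nonneg_left h5 (by positivity)) h3 h6
          (by positivity)) (h2.trans (mul_le_mul_of_nonneg_left h4 hW)) (norm_nonneg _) (by positivity)
    _ = _ := by ring

theorem right_line (h : LData N κ Q F) (r : ℕ) {W : ℝ} (hW : 0 ≤ W)
    (hF : ∀ t : ℝ, ‖F (((5 / 2 : ℝ) : ℂ) + t * I)‖ ≤ W * (1 + |t|) ^ (2 * r)) {s : ℂ} (hs : s.re = 5 / 2) :
    ‖F s‖ ≤ 4 ^ r * 21 ^ N * Q ^ 4 * W * ‖PP r κ s‖ := by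
  have hs' : s = ((5 / 2 : ℝ) : ℂ) + s.im * I := by
    apply Complex.ext
    · simp [hs]
    · simp
  have h2 := hF s.im
  rw [← hs'] at h2
  have hs3 : -3 / 2 ≤ s.re := by rw [hs]; norm_num
  have h4 : (1 + |s.im|) ^ (2 * r) ≤ 4 ^ r * ‖s + 3‖ ^ (2 * r) := by
    calc (1 + |s.im|) ^ (2 * r) ≤ (2 * ‖s + 3‖) ^ (2 * r) :=
          pow_le_pow_left₀ (by positivity) (one_add_abs_le hs3) _
      _ = _ := by rw [mul_pow, pow_mul]; norm_num
  have hQ : 1 ≤ Q := h.one_le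
  have h5 : 1 ≤ ∏ j, ‖s + κ j + 3‖ ^ 2 := by
    calc (1 : ℝ) = ∏ _j : Fin N, (1 : ℝ) := by simp
      _ ≤ _ := Finset.prod_le_prod (fun _ _ => zero_le_one) fun j _ => by
        refine one_le_pow₀ ?_
        have h1 := Complex.re_le_norm (s + κ j + 3)
        have h2 := h.re j
        simp only [add_re] at h1
        have : ((3 : ℂ)).re = 3 := by norm_num
        rw [this, hs] at h1
        linarith
  have h6 : (1 : ℝ) ≤ 21 ^ N * Q ^ 4 :=
    one_le_mul_of_one_le_of_one_le (one_le_pow₀ (by norm_num)) (one_le_pow₀ hQ)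
  rw [PP_norm]
  calc ‖F s‖ ≤ W * (4 ^ r * ‖s + 3‖ ^ (2 * r)) := h2.trans (mul_le_mul_of_nonneg_left h4 hW)
    _ = (W * (4 ^ r * ‖s + 3‖ ^ (2 * r))) * 1 := (mul_one _).symm
    _ ≤ (W * (4 ^ r * ‖s + 3‖ ^ (2 * r))) * ((21 ^ N * Q ^ 4) * ∏ j, ‖s + κ j + 3‖ ^ 2) :=
        mul_le_mul_of_nonneg_left (one_le_mul_of_one_le_of_one_le h6 h5) (by positivity)
    _ = _ := by ring

theorem strip (h : LData N κ Q F) (r : ℕ) {W : ℝ} (hW : 0 ≤ W)
    (hF : ∀ t : ℝ, ‖F (((5 / 2 : ℝ) : ℂ) + t * I)‖ ≤ W * (1 + |t|) ^ (2 * r)) {s : ℂ} (hs1 : -3 / 2 ≤ s.re)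
    (hs2 : s.re ≤ 5 / 2) : ‖F s‖ ≤ 4 ^ r * 21 ^ N * Q ^ 4 * W * ‖PP r κ s‖ := by
  have hne : ∀ z : ℂ, -3 / 2 ≤ z.re → PP r κ z ≠ 0 := fun z hz h0 => by
    have := PP_low h.re r hz
    rw [h0, norm_zero] at this
    have : (0 : ℝ) < (1 / 4) ^ N := by positivity
    linarith
  obtain ⟨C, A, hCA⟩ := h.growth (-3 / 2) (5 / 2)
  have key := PhragmenLindelof.vertical_strip (f := fun z => F z / PP r κ z) (a := -3 / 2) (b := 5 / 2)
    (C := 4 ^ r * 21 ^ N * Q ^ 4 * W) (z := s) ?_ ?_ ?_ ?_ hs1 hs2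
  · rw [norm_div, div_le_iff₀ (norm_pos_iff.2 (hne s hs1))] at key
    exact key
  · apply DifferentiableOn.diffContOnCl
    intro z hz
    have hz' : z ∈ re ⁻¹' Set.Icc (-3 / 2 : ℝ) (5 / 2) := by
      have h1 := closure_minimal (Set.preimage_mono (f := re) (Set.Ioo_subset_Icc_self))
        (isClosed_Icc.preimage Complex.continuous_re) hz
      exact h1
    exact ((h.hF z).div (PP_diff r κ z) (hne z hz'.1)).differentiableWithinAt
  · refine ⟨1 / 2, ?_, (A : ℝ) / (1 / 2), ?_⟩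
    · have := Real.pi_gt_three
      norm_num
      linarith
    · apply Asymptotics.IsBigO.of_bound (|C| * 4 ^ N)
      rw [Filter.eventually_inf_principal]
      refine Eventually.of_forall fun z hz => ?_
      have hz1 : -3 / 2 ≤ z.re := hz.1.le
      have h1 := hCA z hz1 hz.2.le
      have h2 := PP_low h.re r hz1
      have h3 : (0 : ℝ) < (1 / 4) ^ N := by positivity
      rw [norm_div, div_le_iff₀ (by linarith), Real.norm_of_nonneg (Real.exp_pos _).le]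
      have h4 : (1 + |z.im|) ^ A ≤ Real.exp ((A : ℝ) / (1 / 2) * Real.exp (1 / 2 * |z.im|)) := by
        have h5 : 1 + |z.im| ≤ Real.exp |z.im| := by
          have := Real.add_one_le_exp |z.im|
          linarith
        calc (1 + |z.im|) ^ A ≤ (Real.exp |z.im|) ^ A := pow_le_pow_left₀ (by positivity) h5 _
          _ = Real.exp (A * |z.im|) := by rw [← Real.exp_nat_mul]
          _ ≤ _ := by
            apply Real.exp_le_exp.2
            have h6 : 1 / 2 * |z.im| ≤ Real.exp (1 / 2 * |z.im|) := by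
              have := Real.add_one_le_exp (1 / 2 * |z.im|)
              linarith
            have : (A : ℝ) / (1 / 2) * (1 / 2 * |z.im|) ≤ (A : ℝ) / (1 / 2) * Real.exp (1 / 2 * |z.im|) :=
              mul_le_mul_of_nonneg_left h6 (by positivity)
            linarith
      have h7 : (1 : ℝ) ≤ 4 ^ N * ‖PP r κ z‖ := by
        have : (4 : ℝ) ^ N * (1 / 4) ^ N = 1 := by rw [← mul_pow]; norm_num
        rw [← this]
        exact mul_le_mul_of_nonneg_left h2 (by positivity)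
      calc ‖F z‖ ≤ C * (1 + |z.im|) ^ A := h1
        _ ≤ |C| * Real.exp ((A : ℝ) / (1 / 2) * Real.exp (1 / 2 * |z.im|)) :=
            mul_le_mul (le_abs_self C) h4 (by positivity) (abs_nonneg C)
        _ = |C| * Real.exp ((A : ℝ) / (1 / 2) * Real.exp (1 / 2 * |z.im|)) * 1 := (mul_one _).symm
        _ ≤ |C| * Real.exp ((A : ℝ) / (1 / 2) * Real.exp (1 / 2 * |z.im|)) * (4 ^ N * ‖PP r κ z‖) :=
            mul_le_mul_of_nonneg_left h7 (by positivity)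
        _ = _ := by ring
  · intro z hz
    rw [norm_div, div_le_iff₀ (norm_pos_iff.2 (hne z hz.ge))]
    exact left_line h r hW hF hz
  · intro z hz
    rw [norm_div, div_le_iff₀ (norm_pos_iff.2 (hne z (by rw [hz]; norm_num)))]
    exact right_line h r hW hF hz

/-- the bound on `[1, 2]` -/
theorem real_bound (h : LData N κ Q F) (r : ℕ) {W : ℝ} (hW : 0 ≤ W)
    (hF : ∀ t : ℝ, ‖F (((5 / 2 : ℝ) : ℂ) + t * I)‖ ≤ W * (1 + |t|) ^ (2 * r)) {σ : ℝ} (hs1 : 1 ≤ σ)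
    (hs2 : σ ≤ 2) : ‖F (σ : ℂ)‖ ≤ 4 ^ r * 21 ^ N * 5 ^ (2 * r) * 25 ^ N * W * (Q ^ 2 * PK κ) ^ 2 := by
  have h1 := strip h r hW hF (s := (σ : ℂ)) (by simp; linarith) (by simp; linarith)
  have h2 : ‖PP r κ (σ : ℂ)‖ ≤ 5 ^ (2 * r) * (25 ^ N * PK κ ^ 2) := by
    rw [PP_norm]
    have e1 : ‖(σ : ℂ) + 3‖ ≤ 5 := by
      have : (σ : ℂ) + 3 = ((σ + 3 : ℝ) : ℂ) := by push_cast; ring
      rw [this, Complex.norm_real, Real.norm_of_nonneg (by linarith)]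
      linarith
    have e2 : ∏ j, ‖(σ : ℂ) + κ j + 3‖ ^ 2 ≤ 25 ^ N * PK κ ^ 2 := by
      unfold PK
      rw [← Finset.prod_pow]
      have e3 : (25 : ℝ) ^ N * ∏ j, (1 + ‖κ j‖) ^ 2 = ∏ j, (25 * (1 + ‖κ j‖) ^ 2) := by
        rw [Finset.prod_mul_distrib, Finset.prod_const, Finset.card_univ, Fintype.card_fin]
      rw [e3]
      refine Finset.prod_le_prod (fun j _ => by positivity) fun j _ => ?_
      have e4 : ‖(σ : ℂ) + κ j + 3‖ ≤ 5 * (1 + ‖κ j‖) := by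
        have : (σ : ℂ) + κ j + 3 = ((σ : ℂ) + 3) + κ j := by ring
        rw [this]
        refine (norm_add_le _ _).trans ?_
        linarith [norm_nonneg (κ j)]
      calc _ ≤ (5 * (1 + ‖κ j‖)) ^ 2 := pow_le_pow_left₀ (norm_nonneg _) e4 2
        _ = _ := by ring
    exact mul_le_mul (pow_le_pow_left₀ (norm_nonneg _) e1 _) e2 (by positivity) (by positivity)
  have hQ : 0 ≤ Q := by linarith [h.one_le]
  calc ‖F (σ : ℂ)‖ ≤ 4 ^ r * 21 ^ N * Q ^ 4 * W * ‖PP r κ (σ : ℂ)‖ := h1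
    _ ≤ 4 ^ r * 21 ^ N * Q ^ 4 * W * (5 ^ (2 * r) * (25 ^ N * PK κ ^ 2)) :=
        mul_le_mul_of_nonneg_left h2 (by positivity)
    _ = _ := by ring

end Pool.Agent.TH829.RA
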