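import Mathlib
import Pool.Agent.TH829.RA.Defs
import Pool.Agent.TH829.RA.PL
import Pool.Agent.TH861.GL3.Main

/-! The logarithm of `L(1 + δ, Π × Π~)` is bounded by the logarithm of the analytic conductor. -/

set_option autoImplicit false

namespace Pool.Agent.TH829.RA

open NumberField IsDedekindDomain Filter Topology Pool.Agent.TH861.GL3

variable {K : Type*} [Field K] [NumberField K] {S : Finset (HeightOneSpectrum (𝓞 K))} {N : ℕ}

/-- the sum of `q_v ^ (-σ)` over all places -/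
noncomputable def ZS (K : Type*) [Field K] [NumberField K] (σ : ℝ) : ℝ :=
  ∑' v : HeightOneSpectrum (𝓞 K), (qq v : ℝ) ^ (-σ)

theorem summ_all (K : Type*) [Field K] [NumberField K] {σ : ℝ} (hσ : 1 < σ) :
    Summable fun v : HeightOneSpectrum (𝓞 K) => (qq v : ℝ) ^ (-σ) :=
  Pool.Agent.H921R2.TatePole.nm_summable hσ

theorem ZS_nonneg (K : Type*) [Field K] [NumberField K] (σ : ℝ) : 0 ≤ ZS K σ :=
  tsum_nonneg fun v => by positivity

theorem sum_PL_le {σ : ℝ} (hσ : 1 < σ) : ∑' v : PL S, (qq v.1 : ℝ) ^ (-σ) ≤ ZS K σ := by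
  have h := summ_all K hσ
  exact (h.comp_injective Subtype.val_injective).tsum_le_tsum_of_inj Subtype.val
    Subtype.val_injective (fun _ _ => by positivity) (fun _ => le_rfl) h

theorem sum_S_le {σ : ℝ} (hσ : 1 < σ) : ∑ v : S, (qq v.1 : ℝ) ^ (-σ) ≤ ZS K σ := by
  have h := summ_all K hσ
  have h1 := h.sum_le_tsum S (fun _ _ => by positivity)
  rw [← Finset.sum_coe_sort] at h1
  exact h1

/-- for `|z| ≤ 1/2`: `|1 - z| ≥ exp (-2 |z|)` -/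
theorem one_sub_low {z : ℂ} (hz : ‖z‖ ≤ 1 / 2) : Real.exp (-(2 * ‖z‖)) ≤ ‖1 - z‖ := by
  have h1 : 1 - ‖z‖ ≤ ‖1 - z‖ := by
    have := norm_sub_norm_le (1 : ℂ) z
    rwa [norm_one] at this
  refine le_trans ?_ h1
  have h0 := norm_nonneg z
  generalize ‖z‖ = x at *
  have h2 : (1 + 2 * x) * (1 - x) ≥ 1 := by nlinarith
  have h3 : 1 + 2 * x ≤ Real.exp (2 * x) := by
    have := Real.add_one_le_exp (2 * x)
    linarith
  rw [Real.exp_neg, inv_le_iff_one_le_mul₀ (Real.exp_pos _)]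
  nlinarith

/-- a product of factors `1 - z_i` whose logarithms have nonnegative power sums is at most one -/
theorem prod_le_one {ι : Type*} [Fintype ι] {z : ι → ℂ} (hz : ∀ i, ‖z i‖ < 1)
    (h : ∀ k : ℕ, ∃ t : ℝ, 0 ≤ t ∧ ∑ i, z i ^ (k + 1) = (t : ℂ)) : ‖∏ i, (1 - z i)‖ ≤ 1 := by
  have h1 : ∀ i, HasSum (fun k : ℕ => z i ^ (k + 1) / ((k + 1 : ℕ) : ℂ)) (-Complex.log (1 - z i)) := by
    intro i
    have := Complex.hasSum_taylorSeries_neg_log (hz i)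
    rw [← hasSum_nat_add_iff' 1] at this
    simpa using this
  have h2 : HasSum (fun k : ℕ => ∑ i, z i ^ (k + 1) / ((k + 1 : ℕ) : ℂ)) (∑ i, -Complex.log (1 - z i)) :=
    hasSum_sum fun i _ => h1 i
  have h3 : (∑ i, -Complex.log (1 - z i)).re = ∑' k : ℕ, (∑ i, z i ^ (k + 1) / ((k + 1 : ℕ) : ℂ)).re :=
    (Complex.hasSum_re h2).tsum_eq.symm
  have h4 : 0 ≤ (∑ i, -Complex.log (1 - z i)).re := by
    rw [h3]
    refine tsum_nonneg fun k => ?_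
    obtain ⟨t, ht, hk⟩ := h k
    rw [← Finset.sum_div, hk]
    have : ((t : ℂ) / ((k + 1 : ℕ) : ℂ)) = ((t / ((k : ℝ) + 1) : ℝ) : ℂ) := by push_cast; ring
    rw [this, Complex.ofReal_re]
    positivity
  have hne : ∀ i, 1 - z i ≠ 0 := by
    intro i h0
    have h5 := hz i
    rw [← sub_eq_zero.1 h0, norm_one] at h5
    exact lt_irrefl _ h5
  have h5 : ∏ i, (1 - z i) = Complex.exp (-(∑ i, -Complex.log (1 - z i))) := by
    rw [Finset.sum_neg_distrib, neg_neg, Complex.exp_sum]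
    exact Finset.prod_congr rfl fun i _ => (Complex.exp_log (hne i)).symm
  rw [h5, Complex.norm_exp, Complex.neg_re, Real.exp_le_one_iff]
  linarith

variable {r : ℕ} {γ : PL S → Fin N → ℂ} {β : S → Fin (N ^ 2) → ℂ}
  {κ : Fin (N ^ 2 * Module.finrank ℚ K) → ℂ} {Q : ℝ}

/-- the coefficients -/
noncomputable def cf (γ : PL S → Fin N → ℂ) (x : PL S × ℕ) : ℝ :=
  ‖∑ i, γ x.1 i ^ (x.2 + 1)‖ ^ 2 / ((x.2 : ℝ) + 1)

omit [NumberField K] in
theorem cf_nonneg (γ : PL S → Fin N → ℂ) (x : PL S × ℕ) : 0 ≤ cf γ x := by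
  unfold cf
  positivity

/-- the sum of the Dirichlet series at a real point -/
noncomputable def TT (γ : PL S → Fin N → ℂ) (σ : ℝ) : ℝ :=
  ∑' x : PL S × ℕ, cf γ x * (((qq x.1.1 : ℕ) : ℝ) ^ (-σ)) ^ (x.2 + 1)

theorem logRS_real (γ : PL S → Fin N → ℂ) (σ : ℝ) : logRS γ (σ : ℂ) = (TT γ σ : ℂ) := by
  unfold logRS TT cf
  rw [Complex.ofReal_tsum]
  refine tsum_congr fun x => ?_
  push_cast
  rw [Complex.ofReal_cpow (by positivity)]
  push_cast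
  rfl

theorem norm_q (v : HeightOneSpectrum (𝓞 K)) (s : ℂ) :
    ‖((qq v : ℕ) : ℂ) ^ (-s)‖ = (qq v : ℝ) ^ (-s.re) := by
  rw [Complex.norm_natCast_cpow_of_pos (by have := two_le_qq v; omega)]
  simp

theorem psum_le (h : RankinSelberg r γ β κ Q) (x : PL S × ℕ) :
    cf γ x ≤ (N : ℝ) ^ 2 * (qq x.1.1 : ℝ) ^ (x.2 + 1) := by
  have hq := qq_pos x.1.1
  have h1 : ‖∑ i, γ x.1 i ^ (x.2 + 1)‖ ≤ N * ((qq x.1.1 : ℝ) ^ (1 / 2 : ℝ)) ^ (x.2 + 1) := by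
    refine (norm_sum_le _ _).trans ?_
    calc _ ≤ ∑ _i : Fin N, ((qq x.1.1 : ℝ) ^ (1 / 2 : ℝ)) ^ (x.2 + 1) := by
          refine Finset.sum_le_sum fun i _ => ?_
          rw [norm_pow]
          exact pow_le_pow_left₀ (norm_nonneg _) (h.bound x.1 i).le _
      _ = _ := by simp
  have h2 : ‖∑ i, γ x.1 i ^ (x.2 + 1)‖ ^ 2 ≤ (N : ℝ) ^ 2 * (qq x.1.1 : ℝ) ^ (x.2 + 1) := by
    calc _ ≤ (N * ((qq x.1.1 : ℝ) ^ (1 / 2 : ℝ)) ^ (x.2 + 1)) ^ 2 := pow_le_pow_left₀ (norm_nonneg _) h1 2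
      _ = (N : ℝ) ^ 2 * (((qq x.1.1 : ℝ) ^ (1 / 2 : ℝ)) ^ 2) ^ (x.2 + 1) := by ring
      _ = _ := by
        rw [← Real.rpow_natCast (((qq x.1.1 : ℝ) ^ (1 / 2 : ℝ))) 2, ← Real.rpow_mul hq.le]
        norm_num
  unfold cf
  refine (div_le_self (by positivity) ?_).trans h2
  have : (0 : ℝ) ≤ x.2 := Nat.cast_nonneg _
  linarith

theorem norm_logRS (h : RankinSelberg r γ β κ Q) {s : ℂ} (hs : s.re = 5 / 2) :
    ‖logRS γ s‖ ≤ 2 * (N : ℝ) ^ 2 * ZS K (3 / 2) := by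
  have h0 := h.summable (5 / 2) (by norm_num)
  have h1 : ∀ x : PL S × ℕ, ‖((cf γ x : ℝ) : ℂ) * (((qq x.1.1 : ℕ) : ℂ) ^ (-s)) ^ (x.2 + 1)‖ =
      cf γ x * (((qq x.1.1 : ℕ) : ℝ) ^ (-(5 / 2 : ℝ))) ^ (x.2 + 1) := by
    intro x
    rw [norm_mul, norm_pow, norm_q, hs, Complex.norm_real, Real.norm_of_nonneg (cf_nonneg γ x)]
  have h2 : ‖logRS γ s‖ ≤ ∑' x : PL S × ℕ, cf γ x * (((qq x.1.1 : ℕ) : ℝ) ^ (-(5 / 2 : ℝ))) ^ (x.2 + 1) := by
    have h3 := norm_tsum_le_tsum_norm (f := fun x : PL S × ℕ =>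
      ((cf γ x : ℝ) : ℂ) * (((qq x.1.1 : ℕ) : ℂ) ^ (-s)) ^ (x.2 + 1)) (h0.congr fun x => (h1 x).symm)
    simp_rw [h1] at h3
    exact h3
  refine h2.trans ?_
  -- compare with the sum of `N² q^{-3/2 (k+1)}`
  have h4 : ∀ x : PL S × ℕ, cf γ x * (((qq x.1.1 : ℕ) : ℝ) ^ (-(5 / 2 : ℝ))) ^ (x.2 + 1) ≤
      (N : ℝ) ^ 2 * (((qq x.1.1 : ℕ) : ℝ) ^ (-(3 / 2 : ℝ)) * ((1 / 2 : ℝ) ^ x.2)) := by
    intro x
    have hq := qq_pos x.1.1
    have h2q : (2 : ℝ) ≤ qq x.1.1 := by exact_mod_cast two_le_qq x.1.1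
    have e1 : (qq x.1.1 : ℝ) ^ (x.2 + 1) * (((qq x.1.1 : ℕ) : ℝ) ^ (-(5 / 2 : ℝ))) ^ (x.2 + 1) =
        (((qq x.1.1 : ℕ) : ℝ) ^ (-(3 / 2 : ℝ))) ^ (x.2 + 1) := by
      rw [← mul_pow]
      congr 1
      rw [← Real.rpow_one_add' hq.le (by norm_num)]
      norm_num
    have e2 : ((qq x.1.1 : ℕ) : ℝ) ^ (-(3 / 2 : ℝ)) ≤ 1 / 2 := by
      calc ((qq x.1.1 : ℕ) : ℝ) ^ (-(3 / 2 : ℝ)) ≤ ((qq x.1.1 : ℕ) : ℝ) ^ (-1 : ℝ) :=
            Real.rpow_le_rpow_of_exponent_le (by linarith) (by norm_num)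
        _ = 1 / (qq x.1.1 : ℝ) := by rw [Real.rpow_neg_one, one_div]
        _ ≤ 1 / 2 := one_div_le_one_div_of_le (by norm_num) h2q
    calc _ ≤ ((N : ℝ) ^ 2 * (qq x.1.1 : ℝ) ^ (x.2 + 1)) * (((qq x.1.1 : ℕ) : ℝ) ^ (-(5 / 2 : ℝ))) ^ (x.2 + 1) :=
          mul_le_mul_of_nonneg_right (psum_le h x) (by positivity)
      _ = (N : ℝ) ^ 2 * ((((qq x.1.1 : ℕ) : ℝ) ^ (-(3 / 2 : ℝ))) ^ (x.2 + 1)) := by rw [mul_assoc, e1]
      _ ≤ _ := by
        apply mul_le_mul_of_nonneg_left _ (by positivity)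
        rw [pow_succ', ]
        exact mul_le_mul_of_nonneg_left (pow_le_pow_left₀ (by positivity) e2 _) (by positivity)
  have hS : Summable fun x : PL S × ℕ =>
      (N : ℝ) ^ 2 * (((qq x.1.1 : ℕ) : ℝ) ^ (-(3 / 2 : ℝ)) * ((1 / 2 : ℝ) ^ x.2)) := by
    apply Summable.mul_left
    exact (summable_qq (S := S) (σ := 3 / 2) (by norm_num)).mul_of_nonneg summable_geometric_two
      (fun v => by positivity) (fun k => by positivity)
  refine (h0.tsum_le_tsum (fun x => h4 x) hS).trans ?_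
  rw [tsum_mul_left]
  have h5 : ∑' x : PL S × ℕ, ((qq x.1.1 : ℕ) : ℝ) ^ (-(3 / 2 : ℝ)) * ((1 / 2 : ℝ) ^ x.2) =
      (∑' v : PL S, (qq v.1 : ℝ) ^ (-(3 / 2 : ℝ))) * 2 := by
    refine Eq.trans ?_ (congrArg (fun y : ℝ => (∑' v : PL S, (qq v.1 : ℝ) ^ (-(3 / 2 : ℝ))) * y)
      tsum_geometric_two)
    refine ((summable_qq (S := S) (σ := 3 / 2) (by norm_num)).tsum_mul_tsum summable_geometric_two ?_).symm
    exact (summable_qq (S := S) (σ := 3 / 2) (by norm_num)).mul_of_nonneg summable_geometric_two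
      (fun v => by positivity) (fun k => by positivity)
  rw [h5]
  have h6 := sum_PL_le (S := S) (σ := 3 / 2) (by norm_num)
  nlinarith [show (0 : ℝ) ≤ (N : ℝ) ^ 2 by positivity]

/-- the product of the local factors at `S` on the line `Re s = 5/2` -/
theorem ram_low (h : RankinSelberg r γ β κ Q) {s : ℂ} (hs : s.re = 5 / 2) :
    Real.exp (-(2 * (N : ℝ) ^ 2 * ZS K (3 / 2))) ≤
      ‖∏ v, ∏ i, (1 - β v i * ((qq v.1 : ℕ) : ℂ) ^ (-s))‖ := by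
  have h1 : ∀ (v : S) (i : Fin (N ^ 2)), ‖β v i * ((qq v.1 : ℕ) : ℂ) ^ (-s)‖ ≤ (qq v.1 : ℝ) ^ (-(3 / 2 : ℝ)) := by
    intro v i
    have hq := qq_pos v.1
    rw [norm_mul, norm_q, hs]
    calc _ ≤ (qq v.1 : ℝ) * (qq v.1 : ℝ) ^ (-(5 / 2 : ℝ)) :=
          mul_le_mul_of_nonneg_right (h.ramified v i).le (by positivity)
      _ = _ := by
        rw [← Real.rpow_one_add' hq.le (by norm_num)]
        norm_num
  have e2 : ∀ v : S, (qq v.1 : ℝ) ^ (-(3 / 2 : ℝ)) ≤ 1 / 2 := by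
    intro v
    have h2q : (2 : ℝ) ≤ qq v.1 := by exact_mod_cast two_le_qq v.1
    calc (qq v.1 : ℝ) ^ (-(3 / 2 : ℝ)) ≤ (qq v.1 : ℝ) ^ (-1 : ℝ) :=
          Real.rpow_le_rpow_of_exponent_le (by linarith) (by norm_num)
      _ = 1 / (qq v.1 : ℝ) := by rw [Real.rpow_neg_one, one_div]
      _ ≤ 1 / 2 := one_div_le_one_div_of_le (by norm_num) h2q
  have h2 : ∀ v : S, Real.exp (-(2 * (N : ℝ) ^ 2 * (qq v.1 : ℝ) ^ (-(3 / 2 : ℝ)))) ≤
      ‖∏ i, (1 - β v i * ((qq v.1 : ℕ) : ℂ) ^ (-s))‖ := by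
    intro v
    rw [norm_prod]
    calc Real.exp (-(2 * (N : ℝ) ^ 2 * (qq v.1 : ℝ) ^ (-(3 / 2 : ℝ))))
        = ∏ _i : Fin (N ^ 2), Real.exp (-(2 * (qq v.1 : ℝ) ^ (-(3 / 2 : ℝ)))) := by
          rw [Finset.prod_const, Finset.card_univ, Fintype.card_fin, ← Real.exp_nat_mul]
          congr 1
          push_cast
          ring
      _ ≤ _ := by
        refine Finset.prod_le_prod (fun _ _ => (Real.exp_pos _).le) fun i _ => ?_
        refine le_trans ?_ (one_sub_low ((h1 v i).trans (e2 v)))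
        apply Real.exp_le_exp.2
        have := h1 v i
        linarith
  rw [norm_prod]
  calc Real.exp (-(2 * (N : ℝ) ^ 2 * ZS K (3 / 2)))
      ≤ Real.exp (∑ v : S, -(2 * (N : ℝ) ^ 2 * (qq v.1 : ℝ) ^ (-(3 / 2 : ℝ)))) := by
        apply Real.exp_le_exp.2
        rw [Finset.sum_neg_distrib, ← Finset.mul_sum]
        have := sum_S_le (S := S) (σ := 3 / 2) (by norm_num)
        nlinarith [show (0 : ℝ) ≤ (N : ℝ) ^ 2 by positivity]
    _ = ∏ v : S, Real.exp (-(2 * (N : ℝ) ^ 2 * (qq v.1 : ℝ) ^ (-(3 / 2 : ℝ)))) := Real.exp_sum _ _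
    _ ≤ _ := Finset.prod_le_prod (fun _ _ => (Real.exp_pos _).le) fun v _ => h2 v

/-- the constant on the line `Re s = 5/2` -/
noncomputable def W0 (K : Type*) [Field K] [NumberField K] (N r : ℕ) : ℝ :=
  7 ^ (2 * r) * Real.exp (4 * (N : ℝ) ^ 2 * ZS K (3 / 2))

theorem F_right {F : ℂ → ℂ} (h : RankinSelberg r γ β κ Q)
    (hF : ∀ s : ℂ, 1 < s.re → F s * ∏ v, ∏ i, (1 - β v i * ((qq v.1 : ℕ) : ℂ) ^ (-s)) =
      (s * (s - 1)) ^ r * Complex.exp (logRS γ s)) (t : ℝ) :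
    ‖F (((5 / 2 : ℝ) : ℂ) + t * Complex.I)‖ ≤ W0 K N r * (1 + |t|) ^ (2 * r) := by
  obtain ⟨s, hsd⟩ : ∃ s : ℂ, s = ((5 / 2 : ℝ) : ℂ) + t * Complex.I := ⟨_, rfl⟩
  have hs : s.re = 5 / 2 := by rw [hsd]; simp
  rw [← hsd]
  have h1 := congrArg norm (hF s (by rw [hs]; norm_num))
  rw [norm_mul, norm_mul, norm_pow, norm_mul] at h1
  have h2 := ram_low h hs
  have h3 : ‖Complex.exp (logRS γ s)‖ ≤ Real.exp (2 * (N : ℝ) ^ 2 * ZS K (3 / 2)) := by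
    rw [Complex.norm_exp]
    exact Real.exp_le_exp.2 ((Complex.re_le_norm _).trans (norm_logRS h hs))
  have h4 : (‖s‖ * ‖s - 1‖) ^ r ≤ 7 ^ (2 * r) * (1 + |t|) ^ (2 * r) := by
    have a1 : ‖s‖ ≤ 7 * (1 + |t|) := by
      rw [hsd]
      refine (norm_add_le _ _).trans ?_
      rw [norm_mul, Complex.norm_I, mul_one, Complex.norm_real, Complex.norm_real,
        Real.norm_of_nonneg (by norm_num : (0 : ℝ) ≤ 5 / 2), Real.norm_eq_abs]
      linarith [abs_nonneg t]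
    have a2 : ‖s - 1‖ ≤ 7 * (1 + |t|) := by
      have : s - 1 = ((3 / 2 : ℝ) : ℂ) + t * Complex.I := by rw [hsd]; push_cast; ring
      rw [this]
      refine (norm_add_le _ _).trans ?_
      rw [norm_mul, Complex.norm_I, mul_one, Complex.norm_real, Complex.norm_real,
        Real.norm_of_nonneg (by norm_num : (0 : ℝ) ≤ 3 / 2), Real.norm_eq_abs]
      linarith [abs_nonneg t]
    calc (‖s‖ * ‖s - 1‖) ^ r ≤ ((7 * (1 + |t|)) * (7 * (1 + |t|))) ^ r :=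
          pow_le_pow_left₀ (by positivity) (mul_le_mul a1 a2 (norm_nonneg _) (by positivity)) _
      _ = ((7 * (1 + |t|)) ^ 2) ^ r := by rw [sq]
      _ = (7 * (1 + |t|)) ^ (2 * r) := by rw [pow_mul]
      _ = _ := by rw [mul_pow]
  have h5 : ‖F s‖ * Real.exp (-(2 * (N : ℝ) ^ 2 * ZS K (3 / 2))) ≤
      7 ^ (2 * r) * (1 + |t|) ^ (2 * r) * Real.exp (2 * (N : ℝ) ^ 2 * ZS K (3 / 2)) :=
    calc _ ≤ ‖F s‖ * ‖∏ v, ∏ i, (1 - β v i * ((qq v.1 : ℕ) : ℂ) ^ (-s))‖ :=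
          mul_le_mul_of_nonneg_left h2 (norm_nonneg _)
      _ = (‖s‖ * ‖s - 1‖) ^ r * ‖Complex.exp (logRS γ s)‖ := h1
      _ ≤ _ := mul_le_mul h4 h3 (norm_nonneg _) (by positivity)
  rw [Real.exp_neg, ← div_eq_mul_inv, div_le_iff₀ (Real.exp_pos _)] at h5
  refine h5.trans (le_of_eq ?_)
  unfold W0
  have : Real.exp (4 * (N : ℝ) ^ 2 * ZS K (3 / 2)) =
      Real.exp (2 * (N : ℝ) ^ 2 * ZS K (3 / 2)) * Real.exp (2 * (N : ℝ) ^ 2 * ZS K (3 / 2)) := by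
    rw [← Real.exp_add]
    congr 1
    ring
  rw [this]
  ring

/-- the product of the local factors at `S` at a real point -/
theorem ram_high (h : RankinSelberg r γ β κ Q) {σ : ℝ} (hσ : 1 < σ) :
    ‖∏ v, ∏ i, (1 - β v i * ((qq v.1 : ℕ) : ℂ) ^ (-(σ : ℂ)))‖ ≤ 1 := by
  rw [norm_prod]
  refine Finset.prod_le_one (fun _ _ => norm_nonneg _) fun v _ => ?_
  have hq := qq_pos v.1
  have hc : ((qq v.1 : ℕ) : ℂ) ^ (-(σ : ℂ)) = (((qq v.1 : ℝ) ^ (-σ) : ℝ) : ℂ) := by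
    rw [Complex.ofReal_cpow (by positivity)]
    push_cast
    rfl
  refine prod_le_one (fun i => ?_) fun k => ?_
  · rw [norm_mul, norm_q, Complex.ofReal_re]
    calc _ < (qq v.1 : ℝ) * (qq v.1 : ℝ) ^ (-σ) :=
          mul_lt_mul_of_pos_right (h.ramified v i) (by positivity)
      _ ≤ (qq v.1 : ℝ) * (qq v.1 : ℝ) ^ (-1 : ℝ) := by
          apply mul_le_mul_of_nonneg_left _ hq.le
          exact Real.rpow_le_rpow_of_exponent_le (one_lt_qq v.1).le (by linarith)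
      _ = 1 := by
          rw [Real.rpow_neg_one]
          field_simp
  · obtain ⟨t, ht, hk⟩ := h.ramified_nonneg v k
    refine ⟨t * ((qq v.1 : ℝ) ^ (-σ)) ^ (k + 1), by positivity, ?_⟩
    simp_rw [mul_pow]
    rw [← Finset.sum_mul, hk, hc]
    push_cast
    ring

theorem one_le_cond (h : RankinSelberg r γ β κ Q) : 1 ≤ cond κ Q := by
  unfold cond
  exact one_le_mul_of_one_le_of_one_le (one_le_pow₀ h.one_le) (one_le_PK κ)

/-- **The main bound**: `log L^S(1 + δ, Π × Π~) ≤ A (1 + log (1 / δ) + log C)`. -/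
theorem TT_le (K : Type*) [Field K] [NumberField K] (N r : ℕ) :
    ∃ A : ℝ, 0 < A ∧ ∀ δ : ℝ, 0 < δ → δ ≤ 1 → ∀ (S : Finset (HeightOneSpectrum (𝓞 K))) (γ : PL S → Fin N → ℂ)
      (β : S → Fin (N ^ 2) → ℂ) (κ : Fin (N ^ 2 * Module.finrank ℚ K) → ℂ) (Q : ℝ),
      RankinSelberg r γ β κ Q → TT γ (1 + δ) ≤ A * (1 + Real.log (1 / δ) + Real.log (cond κ Q)) := by
  obtain ⟨B, hB⟩ : ∃ B : ℝ, B = 4 ^ r * 21 ^ (N ^ 2 * Module.finrank ℚ K) * 5 ^ (2 * r) *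
    25 ^ (N ^ 2 * Module.finrank ℚ K) * W0 K N r := ⟨_, rfl⟩
  have hW : 0 < W0 K N r := by unfold W0; positivity
  have hB0 : 0 < B := by rw [hB]; positivity
  refine ⟨max (Real.log B) 0 + r + 2, by positivity, ?_⟩
  intro δ hδ hδ1 S γ β κ Q h
  obtain ⟨F, Ξ, ω, hFd, hΞd, hω, hg, he, h2, h3⟩ := h.rs
  have hL : Pool.Agent.TH949.LT.LData (N ^ 2 * Module.finrank ℚ K) κ Q F :=
    { one_le := h.one_le, conj := h.conj, re := h.re, hF := hFd, growth := hg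
      fe := ⟨Ξ, ω, hω, hΞd, h2, h3⟩ }
  have h4 := real_bound hL r hW.le (fun t => F_right h he t) (σ := 1 + δ) (by linarith) (by linarith)
  have h5 := congrArg norm (he ((1 + δ : ℝ) : ℂ) (by simp; exact hδ))
  have h6 := ram_high h (σ := 1 + δ) (by linarith)
  rw [norm_mul, norm_mul, logRS_real, Complex.norm_exp, Complex.ofReal_re] at h5
  have h7 : ‖(((1 + δ : ℝ) : ℂ) * (((1 + δ : ℝ) : ℂ) - 1)) ^ r‖ = ((1 + δ) * δ) ^ r := by
    have : ((1 + δ : ℝ) : ℂ) * (((1 + δ : ℝ) : ℂ) - 1) = (((1 + δ) * δ : ℝ) : ℂ) := by push_cast; ring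
    rw [this, norm_pow, Complex.norm_real, Real.norm_of_nonneg (by positivity)]
  rw [h7] at h5
  have h8 : δ ^ r ≤ ((1 + δ) * δ) ^ r := pow_le_pow_left₀ hδ.le (by nlinarith) _
  have h9 : Real.exp (TT γ (1 + δ)) ≤ B * cond κ Q ^ 2 * (1 / δ) ^ r := by
    have a1 : δ ^ r * Real.exp (TT γ (1 + δ)) ≤ ‖F ((1 + δ : ℝ) : ℂ)‖ :=
      calc _ ≤ ((1 + δ) * δ) ^ r * Real.exp (TT γ (1 + δ)) :=
            mul_le_mul_of_nonneg_right h8 (Real.exp_pos _).le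
        _ = ‖F ((1 + δ : ℝ) : ℂ)‖ * _ := h5.symm
        _ ≤ ‖F ((1 + δ : ℝ) : ℂ)‖ * 1 := mul_le_mul_of_nonneg_left h6 (norm_nonneg _)
        _ = _ := mul_one _
    have a2 := a1.trans h4
    have a3 : (0 : ℝ) < δ ^ r := by positivity
    rw [← le_div_iff₀' a3] at a2
    refine a2.trans (le_of_eq ?_)
    rw [hB]
    unfold cond PK
    rw [one_div, inv_pow]
    ring
  have hc := one_le_cond h
  have h10 : TT γ (1 + δ) ≤ Real.log B + 2 * Real.log (cond κ Q) + r * Real.log (1 / δ) := by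
    have := Real.log_le_log (Real.exp_pos _) h9
    rw [Real.log_exp, Real.log_mul (by positivity) (by positivity), Real.log_mul hB0.ne' (by positivity),
      Real.log_pow, Real.log_pow] at this
    simpa using this
  have h11 := Real.log_nonneg hc
  have h12 := le_max_left (Real.log B) 0
  have h13 := le_max_right (Real.log B) 0
  have h14 : 0 ≤ Real.log (1 / δ) := Real.log_nonneg (by rw [le_div_iff₀ hδ]; linarith)
  have h15 : (0 : ℝ) ≤ r := Nat.cast_nonneg r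
  obtain ⟨x, hx⟩ : ∃ x : ℝ, x = Real.log (cond κ Q) := ⟨_, rfl⟩
  obtain ⟨y, hy⟩ : ∃ y : ℝ, y = Real.log (1 / δ) := ⟨_, rfl⟩
  obtain ⟨z, hz⟩ : ∃ z : ℝ, z = max (Real.log B) 0 := ⟨_, rfl⟩
  rw [← hx] at h10 h11 ⊢
  rw [← hy] at h10 h14 ⊢
  rw [← hz] at h12 h13 ⊢
  have b1 := mul_nonneg h13 h14
  have b2 := mul_nonneg h13 h11
  have b3 := mul_nonneg h15 h11
  nlinarith

/-- the sum over all places near `1` -/
theorem ZS_le (K : Type*) [Field K] [NumberField K] : ∃ A : ℝ, 0 < A ∧ ∀ δ : ℝ, 0 < δ → δ ≤ 1 →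
    ZS K (1 + δ) ≤ A * (1 + Real.log (1 / δ)) := by
  obtain ⟨C, hC⟩ := Pool.Agent.H921R2.TatePole.prime_sum_bdd (K := K)
  rw [eventually_nhdsWithin_iff, Metric.eventually_nhds_iff] at hC
  obtain ⟨ε, hε, hC⟩ := hC
  obtain ⟨η, hη⟩ : ∃ η : ℝ, η = min (ε / 2) 1 := ⟨_, rfl⟩
  have hη0 : 0 < η := by rw [hη]; positivity
  have hη1 : η < ε := by
    rw [hη]
    exact (min_le_left _ _).trans_lt (by linarith)
  have hZ := ZS_nonneg K (1 + η)
  refine ⟨|C| + 1 + ZS K (1 + η), by positivity, fun δ hδ hδ1 => ?_⟩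
  have h14 : 0 ≤ Real.log (1 / δ) := Real.log_nonneg (by rw [le_div_iff₀ hδ]; linarith)
  have hCa := abs_nonneg C
  rcases lt_or_ge δ η with h | h
  · have h1 := hC (y := 1 + δ) (by
      rw [Real.dist_eq, add_sub_cancel_left, abs_of_pos hδ]
      linarith) (by show (1 : ℝ) < 1 + δ; linarith)
    have h2 := (abs_le.1 h1).2
    have h3 : ZS K (1 + δ) - Pool.Agent.H921R2.TatePole.Lam (1 + δ) ≤ C := h2
    unfold Pool.Agent.H921R2.TatePole.Lam at h3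
    rw [add_sub_cancel_left] at h3
    have h4 := le_abs_self C
    have b1 := mul_nonneg hCa h14
    have b2 := mul_nonneg hZ h14
    nlinarith
  · have h1 : ZS K (1 + δ) ≤ ZS K (1 + η) := by
      unfold ZS
      refine (summ_all K (by linarith)).tsum_le_tsum (fun v => ?_) (summ_all K (by linarith))
      exact Real.rpow_le_rpow_of_exponent_le (one_lt_qq v).le (by linarith)
    have b1 := mul_nonneg hCa h14
    have b2 := mul_nonneg hZ h14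
    nlinarith

end Pool.Agent.TH829.RA
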