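import Mathlib

/-! Power sums: if a number of `n` numbers has absolute value `M`, then one of the first `n` power sums is large. -/

set_option autoImplicit false

namespace Pool.Agent.TH829.RA

open Finset

section

variable {ι : Type*} [Fintype ι]

theorem esymm_bound (β : ι → ℂ) {M η : ℝ} (hM : 0 < M) (hη : 0 < η) (hη1 : η ≤ 1)
    (n : ℕ) (h : ∀ k, 1 ≤ k → k ≤ n → ‖∑ i, β i ^ k‖ < η * M ^ k) :
    ∀ k, 1 ≤ k → k ≤ n → ‖(Finset.univ.val.map β).esymm k‖ < η * M ^ k := by
  classical
  intro k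
  induction k using Nat.strong_induction_on with
  | _ k ih =>
  intro hk1 hkn
  have hk0 : (0 : ℝ) < k := by exact_mod_cast hk1
  have e1 := congrArg (MvPolynomial.aeval β) (MvPolynomial.mul_esymm_eq_sum ι ℂ k)
  simp only [map_mul, map_natCast, map_pow, map_neg, map_one, map_sum,
    MvPolynomial.aeval_esymm_eq_multiset_esymm] at e1
  have e2 : ∀ b : ℕ, MvPolynomial.aeval β (MvPolynomial.psum ι ℂ b) = ∑ i, β i ^ b := by
    intro b
    simp [MvPolynomial.psum]
  have e0 : (Finset.univ.val.map β).esymm 0 = 1 := by simp [Multiset.esymm]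
  have e3 := congrArg norm e1
  rw [norm_mul, norm_mul, norm_pow, norm_neg, norm_one, one_pow, one_mul, Complex.norm_natCast] at e3
  have e4 : (k : ℝ) * ‖(Finset.univ.val.map β).esymm k‖ < k * (η * M ^ k) := by
    rw [e3]
    refine (norm_sum_le _ _).trans_lt ?_
    have hmem : (0, k) ∈ (Finset.HasAntidiagonal.antidiagonal k).filter (fun a : ℕ × ℕ => a.1 < k) := by
      simp
      omega
    have hcard : ((Finset.HasAntidiagonal.antidiagonal k).filter (fun a : ℕ × ℕ => a.1 < k)).card = k := by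
      have : (Finset.HasAntidiagonal.antidiagonal k).filter (fun a : ℕ × ℕ => a.1 < k) =
          (Finset.range k).image (fun a => (a, k - a)) := by
        ext ⟨a, b⟩
        simp only [mem_filter, Finset.HasAntidiagonal.mem_antidiagonal, mem_image, mem_range, Prod.mk.injEq]
        constructor
        · rintro ⟨h1, h2⟩
          exact ⟨a, h2, rfl, by omega⟩
        · rintro ⟨c, hc, rfl, rfl⟩
          omega
      rw [this, card_image_of_injective _ (fun a b hab => by simpa using (Prod.mk.inj hab).1), card_range]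
    calc _ < ∑ a ∈ (Finset.HasAntidiagonal.antidiagonal k).filter (fun a : ℕ × ℕ => a.1 < k), η * M ^ k := by
          apply Finset.sum_lt_sum
          · rintro ⟨a, b⟩ hab
            simp only [mem_filter, Finset.HasAntidiagonal.mem_antidiagonal] at hab
            obtain ⟨hab, hak⟩ := hab
            rw [norm_mul, norm_mul, norm_pow, norm_neg, norm_one, one_pow, one_mul, e2]
            have hb : 1 ≤ b := by omega
            have h1 := (h b hb (by omega)).le
            rcases Nat.eq_zero_or_pos a with rfl | ha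
            · rw [zero_add] at hab
              subst hab
              simpa [e0] using h1
            · have h2 := (ih a (by omega) ha (by omega)).le
              calc _ ≤ (η * M ^ a) * (η * M ^ b) := mul_le_mul h2 h1 (norm_nonneg _) (by positivity)
                _ = η * (η * M ^ k) := by rw [← hab, pow_add]; ring
                _ ≤ 1 * (η * M ^ k) := mul_le_mul_of_nonneg_right hη1 (by positivity)
                _ = _ := one_mul _
          · refine ⟨(0, k), hmem, ?_⟩
            rw [norm_mul, norm_mul, norm_pow, norm_neg, norm_one, one_pow, one_mul, e2]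
            simpa [e0] using h k hk1 hkn
      _ = _ := by rw [sum_const, hcard, nsmul_eq_mul]
  exact lt_of_mul_lt_mul_left e4 hk0.le

theorem psum_lower (β : ι → ℂ) (i0 : ι) (h0 : β i0 ≠ 0) :
    ∃ k, 1 ≤ k ∧ k ≤ Fintype.card ι ∧ ‖β i0‖ ^ k ≤ Fintype.card ι * ‖∑ i, β i ^ k‖ := by
  classical
  by_contra hcon
  push Not at hcon
  have hcard : 0 < Fintype.card ι := Fintype.card_pos_iff.2 ⟨i0⟩
  obtain ⟨n, hn⟩ : ∃ n, n = Fintype.card ι := ⟨_, rfl⟩
  rw [← hn] at hcard hcon
  have hn0 : (0 : ℝ) < n := by exact_mod_cast hcard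
  have hn1 : (1 : ℝ) ≤ n := by exact_mod_cast hcard
  have hM : 0 < ‖β i0‖ := norm_pos_iff.2 h0
  have h1 := esymm_bound β (M := ‖β i0‖) (η := 1 / n) hM (by positivity)
    (by rw [div_le_one hn0]; exact hn1) n (fun k hk1 hk2 => by
      have := hcon k hk1 hk2
      rw [one_div, ← div_eq_inv_mul, lt_div_iff₀ hn0, mul_comm]
      exact this)
  have e1 := Multiset.prod_X_sub_X_eq_sum_esymm (Finset.univ.val.map β)
  have e2 := congrArg (Polynomial.eval (β i0)) e1
  rw [Polynomial.eval_multiset_prod, Multiset.map_map, Polynomial.eval_finsetSum] at e2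
  have e3 : (Multiset.map (Polynomial.eval (β i0) ∘ fun t => Polynomial.X - Polynomial.C t)
      (Finset.univ.val.map β)).prod = 0 := by
    apply Multiset.prod_eq_zero
    rw [Multiset.mem_map]
    exact ⟨β i0, Multiset.mem_map.2 ⟨i0, Finset.mem_univ_val _, rfl⟩, by simp⟩
  rw [e3] at e2
  simp only [Polynomial.eval_mul, Polynomial.eval_pow, Polynomial.eval_neg, Polynomial.eval_one,
    Polynomial.eval_C, Polynomial.eval_X, Multiset.card_map, Finset.card_val, Finset.card_univ] at e2
  rw [← hn, Finset.sum_range_succ'] at e2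
  have e0 : (Multiset.map β Finset.univ.val).esymm 0 = 1 := by simp [Multiset.esymm]
  simp only [pow_zero, one_mul, e0, Nat.sub_zero] at e2
  have e4 : β i0 ^ n = -∑ k ∈ Finset.range n, (-1) ^ (k + 1) *
      ((Multiset.map β Finset.univ.val).esymm (k + 1) * β i0 ^ (n - (k + 1))) := by
    rw [eq_neg_iff_add_eq_zero, add_comm]
    exact e2.symm
  have e5 := congrArg norm e4
  rw [norm_neg, norm_pow] at e5
  have e6 : ‖β i0‖ ^ n < ‖β i0‖ ^ n := by
    calc ‖β i0‖ ^ n = _ := e5
      _ ≤ ∑ k ∈ Finset.range n, ‖(-1) ^ (k + 1) *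
          ((Multiset.map β Finset.univ.val).esymm (k + 1) * β i0 ^ (n - (k + 1)))‖ := norm_sum_le _ _
      _ < ∑ k ∈ Finset.range n, 1 / n * ‖β i0‖ ^ n := by
          apply Finset.sum_lt_sum_of_nonempty ⟨0, by simpa using hcard⟩
          intro k hk
          rw [mem_range] at hk
          rw [norm_mul, norm_pow, norm_neg, norm_one, one_pow, one_mul, norm_mul, norm_pow]
          calc _ < 1 / n * ‖β i0‖ ^ (k + 1) * ‖β i0‖ ^ (n - (k + 1)) :=
                mul_lt_mul_of_pos_right (h1 (k + 1) (by omega) (by omega)) (by positivity)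
            _ = 1 / n * ‖β i0‖ ^ n := by
                rw [mul_assoc, ← pow_add]
                congr 2
                omega
      _ = _ := by
          rw [sum_const, card_range, nsmul_eq_mul]
          field_simp
  exact lt_irrefl _ e6

end

/-- the local components are unitary: the multiset is stable under `z ↦ 1 / conj z` -/
def Unit' {N : ℕ} (γ : Fin N → ℂ) : Prop := (∀ i, γ i ≠ 0) ∧
    Multiset.map (fun i => ((starRingEnd ℂ) (γ i))⁻¹) Finset.univ.val =
      Multiset.map γ Finset.univ.val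

/-- at most half of the numbers have absolute value `> 1` -/
theorem card_large {N : ℕ} {γ : Fin N → ℂ} (h : Unit' γ) :
    Fintype.card {i : Fin N // 1 < ‖γ i‖} ≤ N / 2 := by
  classical
  have h1 : (Finset.univ.filter fun i : Fin N => 1 < ‖γ i‖).card =
      (Finset.univ.filter fun i : Fin N => ‖γ i‖ < 1).card := by
    have e := congrArg (Multiset.countP (fun z : ℂ => 1 < ‖z‖)) h.2
    rw [Multiset.countP_map, Multiset.countP_map] at e
    have e1 : (Multiset.filter (fun a : Fin N => 1 < ‖((starRingEnd ℂ) (γ a))⁻¹‖) Finset.univ.val).card =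
        (Finset.univ.filter fun i : Fin N => ‖γ i‖ < 1).card := by
      rw [← Finset.filter_val, Finset.card_val]
      congr 1
      ext i
      simp only [mem_filter, mem_univ, true_and, norm_inv, RCLike.norm_conj]
      have := norm_pos_iff.2 (h.1 i)
      rw [one_lt_inv₀ this]
    rw [e1] at e
    rw [e, ← Finset.filter_val, Finset.card_val]
  rw [Fintype.card_subtype]
  have h2 : Disjoint (Finset.univ.filter fun i : Fin N => 1 < ‖γ i‖)
      (Finset.univ.filter fun i : Fin N => ‖γ i‖ < 1) := by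
    rw [Finset.disjoint_filter]
    intro i _ h3 h4
    linarith
  have h3 := Finset.card_le_univ ((Finset.univ.filter fun i : Fin N => 1 < ‖γ i‖) ∪
    (Finset.univ.filter fun i : Fin N => ‖γ i‖ < 1))
  rw [Finset.card_union_of_disjoint h2, ← h1, Fintype.card_fin] at h3
  omega

/-- a large parameter gives a large power sum of exponent at most `N / 2` -/
theorem psum_large {N : ℕ} {γ : Fin N → ℂ} (h : Unit' γ) (i : Fin N)
    (hi : 2 * (N : ℝ) ^ 2 ≤ ‖γ i‖) :
    ∃ k, 1 ≤ k ∧ k ≤ N / 2 ∧ ‖γ i‖ ^ k ≤ N * ‖∑ j, γ j ^ k‖ := by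
  classical
  have hN : (1 : ℝ) ≤ N := by
    have := i.pos
    exact_mod_cast this
  have hi1 : 1 < ‖γ i‖ := by nlinarith
  obtain ⟨k, hk1, hk2, hk3⟩ := psum_lower (fun j : {j : Fin N // 1 < ‖γ j‖} => γ j.1) ⟨i, hi1⟩ (h.1 i)
  have hc := card_large h
  refine ⟨k, hk1, hk2.trans hc, ?_⟩
  have hc' : (Fintype.card {j : Fin N // 1 < ‖γ j‖} : ℝ) ≤ N / 2 := by
    have : Fintype.card {j : Fin N // 1 < ‖γ j‖} * 2 ≤ N := by omega
    have : (Fintype.card {j : Fin N // 1 < ‖γ j‖} : ℝ) * 2 ≤ N := by exact_mod_cast this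
    linarith
  have e1 : ∑ j, γ j ^ k = ∑ j : {j : Fin N // 1 < ‖γ j‖}, γ j.1 ^ k +
      ∑ j ∈ Finset.univ.filter (fun j : Fin N => ¬ 1 < ‖γ j‖), γ j ^ k := by
    rw [← Finset.sum_filter_add_sum_filter_not Finset.univ (fun j : Fin N => 1 < ‖γ j‖)]
    congr 1
    rw [Finset.sum_subtype (Finset.univ.filter (fun j : Fin N => 1 < ‖γ j‖)) (p := fun j => 1 < ‖γ j‖)
      (by simp)]
  have e2 : ‖∑ j ∈ Finset.univ.filter (fun j : Fin N => ¬ 1 < ‖γ j‖), γ j ^ k‖ ≤ N := by
    refine (norm_sum_le _ _).trans ?_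
    calc _ ≤ ∑ _j ∈ Finset.univ.filter (fun j : Fin N => ¬ 1 < ‖γ j‖), (1 : ℝ) := by
          refine Finset.sum_le_sum fun j hj => ?_
          simp only [mem_filter, mem_univ, true_and, not_lt] at hj
          rw [norm_pow]
          exact pow_le_one₀ (norm_nonneg _) hj
      _ ≤ _ := by
          rw [sum_const, nsmul_eq_mul, mul_one]
          have := Finset.card_le_univ (Finset.univ.filter (fun j : Fin N => ¬ 1 < ‖γ j‖))
          rw [Fintype.card_fin] at this
          exact_mod_cast this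
  have e3 : ‖∑ j : {j : Fin N // 1 < ‖γ j‖}, γ j.1 ^ k‖ ≤ ‖∑ j, γ j ^ k‖ + N := by
    have : ∑ j : {j : Fin N // 1 < ‖γ j‖}, γ j.1 ^ k = ∑ j, γ j ^ k -
        ∑ j ∈ Finset.univ.filter (fun j : Fin N => ¬ 1 < ‖γ j‖), γ j ^ k := by
      rw [e1]; ring
    rw [this]
    exact (norm_sub_le _ _).trans (add_le_add le_rfl e2)
  have e4 : 2 * (N : ℝ) ^ 2 ≤ ‖γ i‖ ^ k := hi.trans (le_self_pow₀ hi1.le (by omega))
  have e5 : ‖γ i‖ ^ k ≤ N / 2 * (‖∑ j, γ j ^ k‖ + N) :=
    hk3.trans (mul_le_mul hc' e3 (norm_nonneg _) (by positivity))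
  nlinarith

end Pool.Agent.TH829.RA
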