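import Mathlib
import Pool.Agent.TH829.RA.Log
import Pool.Agent.TH829.RA.Newton

/-! The mean value of the powers of the largest Satake parameter. -/

set_option autoImplicit false

namespace Pool.Agent.TH829.RA

open NumberField IsDedekindDomain Filter Topology Pool.Agent.TH861.GL3

/-- the largest absolute value -/
noncomputable def rad {N : ℕ} (z : Fin N → ℂ) : ℝ := ⨆ i, ‖z i‖

theorem le_rad {N : ℕ} (z : Fin N → ℂ) (i : Fin N) : ‖z i‖ ≤ rad z :=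
  le_ciSup (Set.finite_range fun i => ‖z i‖).bddAbove i

theorem rad_eq {N : ℕ} (hN : 0 < N) (z : Fin N → ℂ) : ∃ i, ‖z i‖ = rad z := by
  have : Nonempty (Fin N) := ⟨⟨0, hN⟩⟩
  exact exists_eq_ciSup_of_finite

theorem rad_nonneg {N : ℕ} (z : Fin N → ℂ) : 0 ≤ rad z := Real.iSup_nonneg fun _ => norm_nonneg _

variable {K : Type*} [Field K] [NumberField K] {S : Finset (HeightOneSpectrum (𝓞 K))} {N : ℕ}
  {r : ℕ} {γ : PL S → Fin N → ℂ} {β : S → Fin (N ^ 2) → ℂ}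
  {κ : Fin (N ^ 2 * Module.finrank ℚ K) → ℂ} {Q : ℝ}

/-- the terms of the series -/
noncomputable def trm (γ : PL S → Fin N → ℂ) (σ : ℝ) (x : PL S × ℕ) : ℝ :=
  cf γ x * (((qq x.1.1 : ℕ) : ℝ) ^ (-σ)) ^ (x.2 + 1)

theorem trm_nonneg (γ : PL S → Fin N → ℂ) (σ : ℝ) (x : PL S × ℕ) : 0 ≤ trm γ σ x := by
  unfold trm
  exact mul_nonneg (cf_nonneg γ x) (by positivity)

theorem trm_summable (h : RankinSelberg r γ β κ Q) {σ : ℝ} (hσ : 1 < σ) : Summable (trm γ σ) :=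
  h.summable σ hσ

/-- a selection of terms -/
theorem sel_le (h : RankinSelberg r γ β κ Q) {σ : ℝ} (hσ : 1 < σ) (k : PL S → ℕ) :
    Summable (fun v => trm γ σ (v, k v)) ∧ ∑' v, trm γ σ (v, k v) ≤ TT γ σ := by
  have hinj : Function.Injective (fun v : PL S => (v, k v)) := fun a b hab => (Prod.mk.inj hab).1
  have h1 := (trm_summable h hσ).comp_injective hinj
  refine ⟨h1, ?_⟩
  exact h1.tsum_le_tsum_of_inj (fun v : PL S => (v, k v)) hinj (fun _ _ => trm_nonneg _ _ _)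
    (fun _ => le_rfl) (trm_summable h hσ)

theorem rad_lt (h : RankinSelberg r γ β κ Q) (hN : 0 < N) (v : PL S) : rad (γ v) ^ 2 / (qq v.1 : ℝ) < 1 := by
  obtain ⟨i, hi⟩ := rad_eq hN (γ v)
  have hq := qq_pos v.1
  rw [div_lt_one hq, ← hi]
  calc ‖γ v i‖ ^ 2 < ((qq v.1 : ℝ) ^ (1 / 2 : ℝ)) ^ 2 :=
        pow_lt_pow_left₀ (h.bound v i) (norm_nonneg _) (by norm_num)
    _ = _ := by
      rw [← Real.rpow_natCast, ← Real.rpow_mul hq.le]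
      norm_num

/-- the local inequality -/
theorem local_le (h : RankinSelberg r γ β κ Q) (hU : ∀ v, Unit' (γ v)) (hN : 2 ≤ N) {δ : ℝ} (hδ : 0 < δ)
    (v : PL S) : ∃ k : ℕ, (rad (γ v) ^ 2 / (qq v.1 : ℝ)) ^ (N / 2) * (qq v.1 : ℝ) ^ (-δ) ≤
      (2 * (N : ℝ) ^ 2) ^ (2 * (N / 2)) * (qq v.1 : ℝ) ^ (-(1 + δ)) +
        (N : ℝ) ^ 2 * (N / 2 : ℕ) * trm γ (1 + δ / (N / 2 : ℕ)) (v, k) := by
  obtain ⟨m, hm⟩ : ∃ m : ℕ, m = N / 2 := ⟨_, rfl⟩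
  have hm1 : 1 ≤ m := by omega
  have hm0 : (0 : ℝ) < m := by exact_mod_cast hm1
  rw [← hm]
  have hq := qq_pos v.1
  have hq1 := one_lt_qq v.1
  obtain ⟨i, hi⟩ := rad_eq (by omega : 0 < N) (γ v)
  obtain ⟨R, hR⟩ : ∃ R : ℝ, R = rad (γ v) := ⟨_, rfl⟩
  have hR0 : 0 ≤ R := by rw [hR]; exact rad_nonneg _
  have hlt := rad_lt h (by omega) v
  rw [← hR] at hi hlt ⊢
  rcases lt_or_ge R (2 * (N : ℝ) ^ 2) with hs | hl
  · refine ⟨0, ?_⟩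
    have h1 : (R ^ 2 / (qq v.1 : ℝ)) ^ m * (qq v.1 : ℝ) ^ (-δ) ≤
        (2 * (N : ℝ) ^ 2) ^ (2 * m) * (qq v.1 : ℝ) ^ (-(1 + δ)) := by
      have e1 : (R ^ 2 / (qq v.1 : ℝ)) ^ m = R ^ (2 * m) * ((qq v.1 : ℝ) ^ m)⁻¹ := by
        rw [div_pow, pow_mul, div_eq_mul_inv]
      have e2 : ((qq v.1 : ℝ) ^ m)⁻¹ ≤ (qq v.1 : ℝ) ^ (-(1 : ℝ)) := by
        rw [Real.rpow_neg_one]
        apply inv_anti₀ hq
        exact le_self_pow₀ hq1.le (by omega)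
      have e3 : (qq v.1 : ℝ) ^ (-(1 + δ)) = (qq v.1 : ℝ) ^ (-(1 : ℝ)) * (qq v.1 : ℝ) ^ (-δ) := by
        rw [← Real.rpow_add hq]
        congr 1
        ring
      rw [e1, e3, ← mul_assoc]
      apply mul_le_mul_of_nonneg_right _ (by positivity)
      exact mul_le_mul (pow_le_pow_left₀ hR0 hs.le _) e2 (by positivity) (by positivity)
    have h2 : 0 ≤ (N : ℝ) ^ 2 * m * trm γ (1 + δ / m) (v, 0) := by
      have := trm_nonneg γ (1 + δ / m) (v, 0)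
      positivity
    linarith
  · rw [← hi] at hl
    obtain ⟨k, hk1, hk2, hk3⟩ := psum_large (hU v) i hl
    rw [hi] at hk3
    refine ⟨k - 1, ?_⟩
    have hkm : k ≤ m := by omega
    have hk0 : (0 : ℝ) < k := by exact_mod_cast hk1
    have a1 : (R ^ 2 / (qq v.1 : ℝ)) ^ m ≤ (R ^ 2 / (qq v.1 : ℝ)) ^ k :=
      pow_le_pow_of_le_one (by positivity) hlt.le hkm
    have a2 : (R ^ 2) ^ k ≤ (N : ℝ) ^ 2 * ‖∑ j, γ v j ^ k‖ ^ 2 := by
      calc (R ^ 2) ^ k = (R ^ k) ^ 2 := by ring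
        _ ≤ (N * ‖∑ j, γ v j ^ k‖) ^ 2 := pow_le_pow_left₀ (by positivity) hk3 2
        _ = _ := by ring
    have a3 : (qq v.1 : ℝ) ^ (-δ) ≤ ((qq v.1 : ℝ) ^ (-(δ / m))) ^ k := by
      rw [← Real.rpow_natCast, ← Real.rpow_mul hq.le]
      apply Real.rpow_le_rpow_of_exponent_le hq1.le
      have : δ / m * k ≤ δ := by
        rw [div_mul_eq_mul_div, div_le_iff₀ hm0]
        exact mul_le_mul_of_nonneg_left (by exact_mod_cast hkm) hδ.le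
      linarith
    have a4 : trm γ (1 + δ / m) (v, k - 1) = ‖∑ j, γ v j ^ k‖ ^ 2 / k *
        (((qq v.1 : ℝ) ^ k)⁻¹ * ((qq v.1 : ℝ) ^ (-(δ / m))) ^ k) := by
      unfold trm cf
      have e1 : k - 1 + 1 = k := by omega
      have e2 : (((k - 1 : ℕ) : ℝ) + 1) = k := by
        rw [Nat.cast_sub hk1]
        push_cast
        ring
      simp only [e1, e2]
      congr 1
      rw [← inv_pow, ← mul_pow]
      congr 1
      rw [← Real.rpow_neg_one, ← Real.rpow_add hq]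
      congr 1
      ring
    have a5 : (R ^ 2 / (qq v.1 : ℝ)) ^ k * (qq v.1 : ℝ) ^ (-δ) ≤
        (N : ℝ) ^ 2 * (k * trm γ (1 + δ / m) (v, k - 1)) := by
      rw [a4]
      calc (R ^ 2 / (qq v.1 : ℝ)) ^ k * (qq v.1 : ℝ) ^ (-δ)
          = (R ^ 2) ^ k * (((qq v.1 : ℝ) ^ k)⁻¹ * (qq v.1 : ℝ) ^ (-δ)) := by
            rw [div_pow]
            ring
        _ ≤ ((N : ℝ) ^ 2 * ‖∑ j, γ v j ^ k‖ ^ 2) *
            (((qq v.1 : ℝ) ^ k)⁻¹ * ((qq v.1 : ℝ) ^ (-(δ / m))) ^ k) :=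
            mul_le_mul a2 (mul_le_mul_of_nonneg_left a3 (by positivity)) (by positivity) (by positivity)
        _ = _ := by
            field_simp
    have a6 : 0 ≤ trm γ (1 + δ / m) (v, k - 1) := trm_nonneg _ _ _
    have a7 : (k : ℝ) ≤ m := by exact_mod_cast hkm
    calc (R ^ 2 / (qq v.1 : ℝ)) ^ m * (qq v.1 : ℝ) ^ (-δ)
        ≤ (R ^ 2 / (qq v.1 : ℝ)) ^ k * (qq v.1 : ℝ) ^ (-δ) := mul_le_mul_of_nonneg_right a1 (by positivity)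
      _ ≤ (N : ℝ) ^ 2 * (k * trm γ (1 + δ / m) (v, k - 1)) := a5
      _ ≤ (N : ℝ) ^ 2 * m * trm γ (1 + δ / m) (v, k - 1) := by
        rw [mul_assoc]
        exact mul_le_mul_of_nonneg_left (mul_le_mul_of_nonneg_right a7 a6) (by positivity)
      _ ≤ _ := by
        have : 0 ≤ (2 * (N : ℝ) ^ 2) ^ (2 * m) * (qq v.1 : ℝ) ^ (-(1 + δ)) := by positivity
        linarith

/-- **the mean value** -/
theorem mean_le (K : Type*) [Field K] [NumberField K] (N r : ℕ) (hN : 2 ≤ N) :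
    ∃ A : ℝ, 0 < A ∧ ∀ δ : ℝ, 0 < δ → δ ≤ 1 → ∀ (S : Finset (HeightOneSpectrum (𝓞 K)))
      (γ : PL S → Fin N → ℂ)
      (β : S → Fin (N ^ 2) → ℂ) (κ : Fin (N ^ 2 * Module.finrank ℚ K) → ℂ) (Q : ℝ),
      RankinSelberg r γ β κ Q → (∀ v, Unit' (γ v)) →
      Summable (fun v : PL S => (rad (γ v) ^ 2 / (qq v.1 : ℝ)) ^ (N / 2) * (qq v.1 : ℝ) ^ (-δ)) ∧
      ∑' v : PL S, (rad (γ v) ^ 2 / (qq v.1 : ℝ)) ^ (N / 2) * (qq v.1 : ℝ) ^ (-δ) ≤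
        A * (1 + Real.log (1 / δ) + Real.log (cond κ Q)) := by
  have hm1 : 1 ≤ N / 2 := by omega
  have hm0 : (0 : ℝ) < (N / 2 : ℕ) := by exact_mod_cast hm1
  have hmr : (1 : ℝ) ≤ (N / 2 : ℕ) := by exact_mod_cast hm1
  obtain ⟨A1, hA1, H⟩ := TT_le K N r
  obtain ⟨A2, hA2, HZ⟩ := ZS_le K
  have hlm : 0 ≤ Real.log (N / 2 : ℕ) := Real.log_nonneg hmr
  refine ⟨(2 * (N : ℝ) ^ 2) ^ (2 * (N / 2)) * A2 +
    (N : ℝ) ^ 2 * (N / 2 : ℕ) * (A1 * (1 + Real.log (N / 2 : ℕ))), by positivity, ?_⟩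
  intro δ hδ hδ1 S γ β κ Q h hU
  choose k hk using fun v => local_le h hU hN hδ v
  have hσ : 1 < 1 + δ / (N / 2 : ℕ) := by
    have : 0 < δ / (N / 2 : ℕ) := by positivity
    linarith
  obtain ⟨s1, s2⟩ := sel_le h hσ k
  have s3 := summable_qq (S := S) (σ := 1 + δ) (by linarith)
  have s4 := (s3.mul_left ((2 * (N : ℝ) ^ 2) ^ (2 * (N / 2)))).add (s1.mul_left ((N : ℝ) ^ 2 * (N / 2 : ℕ)))
  have s5 : Summable (fun v : PL S => (rad (γ v) ^ 2 / (qq v.1 : ℝ)) ^ (N / 2) * (qq v.1 : ℝ) ^ (-δ)) :=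
    Summable.of_nonneg_of_le (fun v => by positivity) hk s4
  refine ⟨s5, ?_⟩
  have hT := H (δ / (N / 2 : ℕ)) (by positivity) (by rw [div_le_one hm0]; linarith) S γ β κ Q h
  have hc := Real.log_nonneg (one_le_cond h)
  have h14 : 0 ≤ Real.log (1 / δ) := Real.log_nonneg (by rw [le_div_iff₀ hδ]; linarith)
  have hZ1 := (sum_PL_le (S := S) (σ := 1 + δ) (by linarith)).trans (HZ δ hδ hδ1)
  have hl : Real.log (1 / (δ / (N / 2 : ℕ))) = Real.log (N / 2 : ℕ) + Real.log (1 / δ) := by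
    rw [← Real.log_mul hm0.ne' (by positivity)]
    congr 1
    field_simp
  rw [hl] at hT
  obtain ⟨x, hx⟩ : ∃ x : ℝ, x = Real.log (cond κ Q) := ⟨_, rfl⟩
  obtain ⟨y, hy⟩ : ∃ y : ℝ, y = Real.log (1 / δ) := ⟨_, rfl⟩
  obtain ⟨z, hz⟩ : ∃ z : ℝ, z = Real.log (N / 2 : ℕ) := ⟨_, rfl⟩
  rw [← hx] at hT hc ⊢
  rw [← hy] at hT h14 hZ1 ⊢
  rw [← hz] at hT hlm ⊢
  have hT' : TT γ (1 + δ / (N / 2 : ℕ)) ≤ A1 * (1 + z) * (1 + y + x) := by
    refine hT.trans ?_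
    have b1 := mul_nonneg hlm h14
    have b2 := mul_nonneg hlm hc
    have : 1 + (z + y) + x ≤ (1 + z) * (1 + y + x) := by nlinarith
    calc _ ≤ A1 * ((1 + z) * (1 + y + x)) := mul_le_mul_of_nonneg_left this hA1.le
      _ = _ := by ring
  calc _ ≤ ∑' v : PL S, ((2 * (N : ℝ) ^ 2) ^ (2 * (N / 2)) * (qq v.1 : ℝ) ^ (-(1 + δ)) +
        (N : ℝ) ^ 2 * (N / 2 : ℕ) * trm γ (1 + δ / (N / 2 : ℕ)) (v, k v)) := s5.tsum_le_tsum hk s4
    _ = (2 * (N : ℝ) ^ 2) ^ (2 * (N / 2)) * ∑' v : PL S, (qq v.1 : ℝ) ^ (-(1 + δ)) +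
        (N : ℝ) ^ 2 * (N / 2 : ℕ) * ∑' v : PL S, trm γ (1 + δ / (N / 2 : ℕ)) (v, k v) := by
      rw [(s3.mul_left _).tsum_add (s1.mul_left _), tsum_mul_left, tsum_mul_left]
    _ ≤ (2 * (N : ℝ) ^ 2) ^ (2 * (N / 2)) * (A2 * (1 + y)) +
        (N : ℝ) ^ 2 * (N / 2 : ℕ) * (A1 * (1 + z) * (1 + y + x)) := by
      refine add_le_add (mul_le_mul_of_nonneg_left hZ1 (by positivity))
        (mul_le_mul_of_nonneg_left (s2.trans hT') (by positivity))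
    _ ≤ _ := by
      have : 0 ≤ (2 * (N : ℝ) ^ 2) ^ (2 * (N / 2)) * A2 * x := by positivity
      nlinarith

/-- Mertens form: from the mean value to sums over the places of norm at most `X` -/
theorem mertens_of {f : PL S → ℝ} (hf : ∀ v, 0 ≤ f v) {A L X : ℝ} (hX : 3 ≤ X)
    (h : ∀ δ : ℝ, 0 < δ → δ ≤ 1 → Summable (fun v : PL S => f v * (qq v.1 : ℝ) ^ (-δ)) ∧
      ∑' v : PL S, f v * (qq v.1 : ℝ) ^ (-δ) ≤ A * (1 + Real.log (1 / δ) + L))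
    (F : Finset (PL S)) (hF : ∀ v ∈ F, (qq v.1 : ℝ) ≤ X) :
    ∑ v ∈ F, f v ≤ Real.exp 1 * A * (1 + Real.log (Real.log X) + L) := by
  have hX0 : 0 < X := by linarith
  have hlog : 1 < Real.log X := by
    have h1 : Real.exp 1 < 3 := by
      have := Real.exp_one_lt_d9
      linarith
    rw [Real.lt_log_iff_exp_lt hX0]
    linarith
  obtain ⟨δ, hδ⟩ : ∃ δ : ℝ, δ = 1 / Real.log X := ⟨_, rfl⟩
  have hδ0 : 0 < δ := by rw [hδ]; positivity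
  have hδ1 : δ ≤ 1 := by
    rw [hδ, div_le_one (by linarith)]
    exact hlog.le
  obtain ⟨h1, h2⟩ := h δ hδ0 hδ1
  have h3 : ∀ v ∈ F, f v ≤ Real.exp 1 * (f v * (qq v.1 : ℝ) ^ (-δ)) := by
    intro v hv
    have hq := qq_pos v.1
    have e1 : (qq v.1 : ℝ) ^ δ ≤ Real.exp 1 := by
      calc (qq v.1 : ℝ) ^ δ ≤ X ^ δ := Real.rpow_le_rpow hq.le (hF v hv) hδ0.le
        _ = Real.exp 1 := by
          rw [Real.rpow_def_of_pos hX0, hδ, mul_one_div_cancel (by linarith)]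
    have e2 : 1 ≤ Real.exp 1 * (qq v.1 : ℝ) ^ (-δ) := by
      rw [Real.rpow_neg hq.le, ← div_eq_mul_inv, one_le_div (by positivity)]
      exact e1
    calc f v = f v * 1 := (mul_one _).symm
      _ ≤ f v * (Real.exp 1 * (qq v.1 : ℝ) ^ (-δ)) := mul_le_mul_of_nonneg_left e2 (hf v)
      _ = _ := by ring
  have e4 : 1 / δ = Real.log X := by rw [hδ, one_div_one_div]
  rw [e4] at h2
  calc ∑ v ∈ F, f v ≤ ∑ v ∈ F, Real.exp 1 * (f v * (qq v.1 : ℝ) ^ (-δ)) := Finset.sum_le_sum h3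
    _ = Real.exp 1 * ∑ v ∈ F, f v * (qq v.1 : ℝ) ^ (-δ) := by rw [Finset.mul_sum]
    _ ≤ Real.exp 1 * ∑' v : PL S, f v * (qq v.1 : ℝ) ^ (-δ) := by
      refine mul_le_mul_of_nonneg_left (h1.sum_le_tsum _ fun v _ => ?_) (Real.exp_pos _).le
      have := hf v
      positivity
    _ ≤ Real.exp 1 * (A * (1 + Real.log (Real.log X) + L)) :=
      mul_le_mul_of_nonneg_left h2 (Real.exp_pos _).le
    _ = _ := by ring

/-- the places of norm at most `X` are finite in number -/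
theorem fin_le (X : ℝ) (P : PL S → Prop) : {v : PL S | (qq v.1 : ℝ) ≤ X ∧ P v}.Finite := by
  have h1 : {v : HeightOneSpectrum (𝓞 K) | Pool.Agent.H921R2.TatePole.nm v ≤ ⌊X⌋₊}.Finite :=
    finite_nm_le K ⌊X⌋₊
  refine (h1.preimage Subtype.val_injective.injOn).subset ?_
  intro v hv
  have hv1 : (qq v.1 : ℝ) ≤ X := hv.1
  exact Nat.le_floor hv1

/-- the number of the places with a large parameter -/
theorem count_of {m : ℕ} {R : PL S → ℝ} {θ X A : ℝ} (hθ : θ ≤ 1 / 2) (hX : 1 ≤ X)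
    (h : ∀ F : Finset (PL S), (∀ v ∈ F, (qq v.1 : ℝ) ≤ X) → ∑ v ∈ F, (R v ^ 2 / (qq v.1 : ℝ)) ^ m ≤ A) :
    (({v : PL S | (qq v.1 : ℝ) ≤ X ∧ (qq v.1 : ℝ) ^ θ ≤ R v}.ncard : ℕ) : ℝ) ≤
      A * X ^ ((m : ℝ) * (1 - 2 * θ)) := by
  have hfin := fin_le (S := S) X (fun v => (qq v.1 : ℝ) ^ θ ≤ R v)
  obtain ⟨e, he⟩ : ∃ e : ℝ, e = (m : ℝ) * (1 - 2 * θ) := ⟨_, rfl⟩
  have he0 : 0 ≤ e := by
    rw [he]
    have : 0 ≤ 1 - 2 * θ := by linarith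
    positivity
  rw [← he]
  have hX0 : 0 < X := by linarith
  have h2 : ∀ v ∈ hfin.toFinset, X ^ (-e) ≤ (R v ^ 2 / (qq v.1 : ℝ)) ^ m := by
    intro v hv
    rw [Set.Finite.mem_toFinset] at hv
    obtain ⟨hv1, hv2⟩ := hv
    have hq := qq_pos v.1
    have b1 : (qq v.1 : ℝ) ^ (-(1 - 2 * θ)) ≤ R v ^ 2 / (qq v.1 : ℝ) := by
      rw [le_div_iff₀ hq, ← Real.rpow_add_one hq.ne']
      calc (qq v.1 : ℝ) ^ (-(1 - 2 * θ) + 1) = ((qq v.1 : ℝ) ^ θ) ^ 2 := by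
            rw [← Real.rpow_natCast, ← Real.rpow_mul hq.le]
            congr 1
            push_cast
            ring
        _ ≤ _ := pow_le_pow_left₀ (by positivity) hv2 2
    calc X ^ (-e) ≤ (qq v.1 : ℝ) ^ (-e) := by
          rw [Real.rpow_neg hX0.le, Real.rpow_neg hq.le]
          exact inv_anti₀ (by positivity) (Real.rpow_le_rpow hq.le hv1 he0)
      _ = ((qq v.1 : ℝ) ^ (-(1 - 2 * θ))) ^ m := by
          rw [← Real.rpow_natCast, ← Real.rpow_mul hq.le, he]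
          congr 1
          ring
      _ ≤ _ := pow_le_pow_left₀ (by positivity) b1 m
  have h3 : (hfin.toFinset.card : ℝ) * X ^ (-e) ≤ A := by
    calc (hfin.toFinset.card : ℝ) * X ^ (-e) = ∑ _v ∈ hfin.toFinset, X ^ (-e) := by
          rw [Finset.sum_const, nsmul_eq_mul]
      _ ≤ ∑ v ∈ hfin.toFinset, (R v ^ 2 / (qq v.1 : ℝ)) ^ m := Finset.sum_le_sum h2
      _ ≤ A := h _ fun v hv => ((Set.Finite.mem_toFinset _).1 hv).1
  rw [Set.ncard_eq_toFinset_card _ hfin]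
  rw [Real.rpow_neg hX0.le, ← div_eq_mul_inv, div_le_iff₀ (by positivity)] at h3
  exact h3

/-- the number of the places with a large parameter, from a bound for a series -/
theorem count_le {m : ℕ} {R : PL S → ℝ} (hR : ∀ v, 0 ≤ R v) {δ A θ X : ℝ} (hδ : 0 ≤ δ) (hθ : θ ≤ 1 / 2)
    (hX : 1 ≤ X)
    (hs : Summable (fun v : PL S => (R v ^ 2 / (qq v.1 : ℝ)) ^ m * (qq v.1 : ℝ) ^ (-δ)))
    (h : ∑' v : PL S, (R v ^ 2 / (qq v.1 : ℝ)) ^ m * (qq v.1 : ℝ) ^ (-δ) ≤ A) :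
    {v : PL S | (qq v.1 : ℝ) ≤ X ∧ (qq v.1 : ℝ) ^ θ ≤ R v}.Finite ∧
    (({v : PL S | (qq v.1 : ℝ) ≤ X ∧ (qq v.1 : ℝ) ^ θ ≤ R v}.ncard : ℕ) : ℝ) ≤
      A * X ^ ((m : ℝ) * (1 - 2 * θ) + δ) := by
  refine ⟨fin_le X _, ?_⟩
  have hX0 : 0 < X := by linarith
  have h1 := count_of (m := m) (R := R) (A := A * X ^ δ) hθ hX (fun F hF => ?_)
  · refine h1.trans (le_of_eq ?_)
    rw [Real.rpow_add hX0]
    ring
  · have h2 : ∀ v ∈ F, (R v ^ 2 / (qq v.1 : ℝ)) ^ m ≤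
        X ^ δ * ((R v ^ 2 / (qq v.1 : ℝ)) ^ m * (qq v.1 : ℝ) ^ (-δ)) := by
      intro v hv
      have hq := qq_pos v.1
      have hRv := hR v
      have e1 : (qq v.1 : ℝ) ^ δ ≤ X ^ δ := Real.rpow_le_rpow hq.le (hF v hv) hδ
      have e2 : 1 ≤ X ^ δ * (qq v.1 : ℝ) ^ (-δ) := by
        rw [Real.rpow_neg hq.le, ← div_eq_mul_inv, one_le_div (by positivity)]
        exact e1
      have e3 : 0 ≤ (R v ^ 2 / (qq v.1 : ℝ)) ^ m := by positivity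
      nlinarith
    calc _ ≤ ∑ v ∈ F, X ^ δ * ((R v ^ 2 / (qq v.1 : ℝ)) ^ m * (qq v.1 : ℝ) ^ (-δ)) := Finset.sum_le_sum h2
      _ = X ^ δ * ∑ v ∈ F, (R v ^ 2 / (qq v.1 : ℝ)) ^ m * (qq v.1 : ℝ) ^ (-δ) := by rw [Finset.mul_sum]
      _ ≤ X ^ δ * ∑' v : PL S, (R v ^ 2 / (qq v.1 : ℝ)) ^ m * (qq v.1 : ℝ) ^ (-δ) := by
        refine mul_le_mul_of_nonneg_left (hs.sum_le_tsum _ fun v _ => ?_) (by positivity)
        have := hR v
        positivity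
      _ ≤ X ^ δ * A := mul_le_mul_of_nonneg_left h (by positivity)
      _ = _ := mul_comm _ _

end Pool.Agent.TH829.RA
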