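import Mathlib
import Pool.Agent.TH829.RA.Mean
import Pool.Agent.H126U.Nat1

/-! The least place outside a thin set. -/

set_option autoImplicit false

namespace Pool.Agent.TH829.RA

open NumberField IsDedekindDomain Filter Topology Pool.Agent.TH861.GL3

/-- a power of `X` is below the number of primes up to `X` -/
theorem pi_low {η : ℝ} (hη : 0 < η) : ∀ᶠ X : ℕ in atTop, 2 * (X : ℝ) ^ (1 - η) ≤ (Nat.primeCounting X : ℝ) := by
  have h1 : ∀ᶠ N : ℕ in atTop, Real.log ((N : ℝ) + 1) ≤ N / 4 := by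
    have e1 : Tendsto (fun x : ℝ => Real.log x / x ^ (1 : ℝ)) atTop (𝓝 0) :=
      (isLittleO_log_rpow_atTop (by norm_num)).tendsto_div_nhds_zero
    have e2 := e1.comp ((tendsto_natCast_atTop_atTop (R := ℝ)).atTop_add (tendsto_const_nhds (x := (1 : ℝ))))
    filter_upwards [e2.eventually (gt_mem_nhds (show (0 : ℝ) < 1 / 8 by norm_num)),
      eventually_ge_atTop 1] with N hN hN1
    simp only [Function.comp_apply, Real.rpow_one] at hN
    have hp : (0 : ℝ) < (N : ℝ) + 1 := by positivity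
    rw [div_lt_iff₀ hp] at hN
    have : (1 : ℝ) ≤ N := by exact_mod_cast hN1
    linarith
  have h2 : ∀ᶠ N : ℕ in atTop, Real.log (N : ℝ) ≤ (1 / 8) * (N : ℝ) ^ η := by
    have e1 : Tendsto (fun x : ℝ => Real.log x / x ^ η) atTop (𝓝 0) :=
      (isLittleO_log_rpow_atTop hη).tendsto_div_nhds_zero
    have e2 := e1.comp (tendsto_natCast_atTop_atTop (R := ℝ))
    filter_upwards [e2.eventually (gt_mem_nhds (show (0 : ℝ) < 1 / 8 by norm_num)),
      eventually_ge_atTop 1] with N hN hN1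
    simp only [Function.comp_apply] at hN
    have hp : (0 : ℝ) < (N : ℝ) ^ η := by
      have : (0 : ℝ) < N := by exact_mod_cast hN1
      positivity
    rw [div_lt_iff₀ hp] at hN
    exact hN.le
  filter_upwards [h1, h2, eventually_ge_atTop 2] with N h3 h4 h5
  have h6 := Chebyshev.pi_ge N
  have hN : (2 : ℝ) ≤ N := by exact_mod_cast h5
  have hN0 : (0 : ℝ) < N := by linarith
  have hlog : 0 < Real.log N := Real.log_pos (by linarith)
  have hl2 : (1 / 2 : ℝ) < Real.log 2 := by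
    have := Real.log_two_gt_d9
    linarith
  refine le_trans ?_ h6
  rw [le_div_iff₀ hlog]
  have h7 : (N : ℝ) / 4 ≤ N * Real.log 2 - Real.log (N + 1) := by nlinarith
  refine le_trans ?_ h7
  calc 2 * (N : ℝ) ^ (1 - η) * Real.log N ≤ 2 * (N : ℝ) ^ (1 - η) * ((1 / 8) * (N : ℝ) ^ η) :=
        mul_le_mul_of_nonneg_left h4 (by positivity)
    _ = (1 / 4) * ((N : ℝ) ^ (1 - η) * (N : ℝ) ^ η) := by ring
    _ = N / 4 := by
      rw [← Real.rpow_add hN0, sub_add_cancel, Real.rpow_one]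
      ring

variable (K : Type) [Field K] [NumberField K]

/-- the number of places of norm at most `X` -/
theorem places_low {η : ℝ} (hη : 0 < η) : ∀ᶠ X : ℕ in atTop,
    (X : ℝ) ^ (1 - η) ≤ (({v : HeightOneSpectrum (𝓞 K) | qq v ≤ X}.ncard : ℕ) : ℝ) := by
  have h1 := (Pool.Agent.H126U.card_VX (K := K)).eventually (lt_mem_nhds (show (1 / 2 : ℝ) < 1 by norm_num))
  filter_upwards [h1, pi_low hη, eventually_ge_atTop 2] with X h2 h3 h4
  have hX : (0 : ℝ) < X := by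
    have : 0 < X := by omega
    exact_mod_cast this
  have h5 : (0 : ℝ) < (Nat.primeCounting X : ℝ) := lt_of_lt_of_le (by positivity) h3
  rw [lt_div_iff₀ h5] at h2
  have h6 : {v : HeightOneSpectrum (𝓞 K) | qq v ≤ X} = (Pool.Agent.H126U.VX K X : Set _) := by
    ext v
    rw [Finset.mem_coe, Pool.Agent.H126U.mem_VX]
    rfl
  rw [h6, Set.ncard_coe_finset]
  linarith

/-- **the least place outside a thin set** -/
theorem least {c B A : ℝ} (hc : 0 ≤ c) (hc1 : c < 1) (hB : 1 / (1 - c) < B) (hA : 0 < A) :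
    ∃ A' : ℝ, 0 < A' ∧ ∀ (S : Finset (HeightOneSpectrum (𝓞 K))) (L : ℝ), 1 ≤ L → (S.card : ℝ) ≤ 2 * L →
      ∀ bad : Set (PL S), (∀ X : ℝ, 1 ≤ X → {v : PL S | (qq v.1 : ℝ) ≤ X ∧ v ∈ bad}.Finite ∧
        (({v : PL S | (qq v.1 : ℝ) ≤ X ∧ v ∈ bad}.ncard : ℕ) : ℝ) ≤ A * X ^ c * L) →
      ∃ v : PL S, (qq v.1 : ℝ) ≤ A' * L ^ B ∧ v ∉ bad := by
  have hc2 : 0 < 1 - c := by linarith
  have hB0 : 0 < B := lt_trans (by positivity) hB
  obtain ⟨η, hη⟩ : ∃ η : ℝ, η = 1 - c - 1 / B := ⟨_, rfl⟩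
  have hη0 : 0 < η := by
    have h1 : 1 / B < 1 - c := by
      rw [div_lt_iff₀ hc2] at hB
      rw [div_lt_iff₀ hB0]
      linarith
    linarith
  obtain ⟨X0, hX0⟩ := eventually_atTop.1 (places_low K hη0)
  refine ⟨X0 + 1 + (2 + A) ^ B, by positivity, ?_⟩
  intro S L hL hS bad hbad
  obtain ⟨Y, hY⟩ : ∃ Y : ℝ, Y = ((2 + A) * L) ^ B := ⟨_, rfl⟩
  have hY0 : 0 ≤ Y := by rw [hY]; positivity
  obtain ⟨X, hX⟩ : ∃ X : ℕ, X = max X0 (⌊Y⌋₊ + 1) := ⟨_, rfl⟩
  have hX1 : X0 ≤ X := by rw [hX]; exact le_max_left _ _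
  have hX2 : ⌊Y⌋₊ + 1 ≤ X := by rw [hX]; exact le_max_right _ _
  have hX3 : Y < X := (Nat.lt_floor_add_one Y).trans_le (by exact_mod_cast hX2)
  have hX4 : (1 : ℝ) ≤ X := by
    have : 1 ≤ X := by omega
    exact_mod_cast this
  have hX5 : (X : ℝ) ≤ X0 + 1 + Y := by
    rw [hX]
    push_cast
    apply max_le
    · linarith
    · have := Nat.floor_le hY0
      have : (0 : ℝ) ≤ X0 := Nat.cast_nonneg _
      linarith
  have hLB : 1 ≤ L ^ B := Real.one_le_rpow hL hB0.le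
  have hfin : (X0 : ℝ) + 1 + Y ≤ (X0 + 1 + (2 + A) ^ B) * L ^ B := by
    rw [hY, Real.mul_rpow (by positivity) (by linarith)]
    have : (0 : ℝ) ≤ X0 := Nat.cast_nonneg _
    nlinarith
  by_contra hcon
  push Not at hcon
  have h1 : ∀ v : PL S, (qq v.1 : ℝ) ≤ X → v ∈ bad := fun v hv => hcon v (hv.trans (hX5.trans hfin))
  obtain ⟨g1, g2⟩ := hbad X hX4
  have h2 := hX0 X hX1
  -- the places of norm at most `X` are in `S` or bad
  have h3 : (({v : HeightOneSpectrum (𝓞 K) | qq v ≤ X}.ncard : ℕ) : ℝ) ≤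
      (S.card : ℝ) + (({v : PL S | (qq v.1 : ℝ) ≤ X ∧ v ∈ bad}.ncard : ℕ) : ℝ) := by
    have e1 : {v : HeightOneSpectrum (𝓞 K) | qq v ≤ X} ⊆
        (S : Set (HeightOneSpectrum (𝓞 K))) ∪ Subtype.val '' {v : PL S | (qq v.1 : ℝ) ≤ X ∧ v ∈ bad} := by
      intro v hv
      by_cases hvS : v ∈ S
      · exact Or.inl hvS
      · right
        have hv' : (qq v : ℝ) ≤ X := by exact_mod_cast hv
        exact ⟨⟨v, hvS⟩, ⟨hv', h1 ⟨v, hvS⟩ hv'⟩, rfl⟩
    have e2 := Set.ncard_le_ncard e1 (S.finite_toSet.union (g1.image _))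
    have e3 := Set.ncard_union_le (S : Set (HeightOneSpectrum (𝓞 K)))
      (Subtype.val '' {v : PL S | (qq v.1 : ℝ) ≤ X ∧ v ∈ bad})
    have e4 := Set.ncard_image_le (f := Subtype.val) g1
    rw [Set.ncard_coe_finset] at e3
    exact_mod_cast e2.trans (e3.trans (Nat.add_le_add_left e4 _))
  have hXc : 1 ≤ (X : ℝ) ^ c := Real.one_le_rpow hX4 hc
  have hX6 : (0 : ℝ) < X := by linarith
  have h4 : (X : ℝ) ^ (1 - η) ≤ (2 + A) * L * (X : ℝ) ^ c := by
    have : 2 * L ≤ 2 * L * (X : ℝ) ^ c := le_mul_of_one_le_right (by linarith) hXc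
    calc (X : ℝ) ^ (1 - η) ≤ 2 * L + A * (X : ℝ) ^ c * L := h2.trans (h3.trans (add_le_add hS g2))
      _ ≤ 2 * L * (X : ℝ) ^ c + A * (X : ℝ) ^ c * L := by linarith
      _ = _ := by ring
  have h5 : (X : ℝ) ^ (1 / B) ≤ (2 + A) * L := by
    have e1 : (X : ℝ) ^ (1 - η) = (X : ℝ) ^ (1 / B) * (X : ℝ) ^ c := by
      rw [← Real.rpow_add hX6, hη]
      congr 1
      ring
    rw [e1] at h4
    exact le_of_mul_le_mul_right h4 (by positivity)
  have h6 : (X : ℝ) ≤ Y := by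
    rw [hY]
    calc (X : ℝ) = ((X : ℝ) ^ (1 / B)) ^ B := by
          rw [← Real.rpow_mul hX6.le, one_div, inv_mul_cancel₀ hB0.ne', Real.rpow_one]
      _ ≤ _ := Real.rpow_le_rpow (by positivity) h5 hB0.le
  linarith

variable {K}

/-- the number of the places which divide the conductor -/
theorem card_S {S : Finset (HeightOneSpectrum (𝓞 K))} {M : ℕ} {κ : Fin M → ℂ} {Q : ℝ} (hQ : 1 ≤ Q)
    (h : ∏ v ∈ S, (qq v : ℝ) ≤ Q ^ 2) : (S.card : ℝ) ≤ 2 * (1 + Real.log (cond κ Q)) := by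
  have h1 : (2 : ℝ) ^ S.card ≤ cond κ Q := by
    calc (2 : ℝ) ^ S.card = ∏ _v ∈ S, (2 : ℝ) := by simp
      _ ≤ ∏ v ∈ S, (qq v : ℝ) := Finset.prod_le_prod (fun _ _ => by norm_num) fun v _ => by
        exact_mod_cast two_le_qq v
      _ ≤ Q ^ 2 := h
      _ ≤ Q ^ 2 * ∏ j, (1 + ‖κ j‖) := le_mul_of_one_le_right (by positivity) (one_le_PK κ)
  have h2 := Real.log_le_log (by positivity) h1
  rw [Real.log_pow] at h2
  have h3 : (1 / 2 : ℝ) < Real.log 2 := by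
    have := Real.log_two_gt_d9
    linarith
  have h4 : (0 : ℝ) ≤ S.card := Nat.cast_nonneg _
  nlinarith

end Pool.Agent.TH829.RA
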