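import Mathlib
import Pool.Agent.TH829.RA.Least

/-! The theorems. -/

set_option autoImplicit false

namespace Pool.Agent.TH829.RA

open NumberField IsDedekindDomain Filter Topology Pool.Agent.TH861.GL3

/-- **The mean value** in Mertens form. -/
theorem mertens_all (K : Type*) [Field K] [NumberField K] (N r : ℕ) (hN : 2 ≤ N) :
    ∃ A : ℝ, 0 < A ∧ ∀ (S : Finset (HeightOneSpectrum (𝓞 K))) (γ : PL S → Fin N → ℂ)
      (β : S → Fin (N ^ 2) → ℂ) (κ : Fin (N ^ 2 * Module.finrank ℚ K) → ℂ) (Q : ℝ),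
      RankinSelberg r γ β κ Q → (∀ v, Unit' (γ v)) → ∀ X : ℝ, 3 ≤ X →
      ∀ F : Finset (PL S), (∀ v ∈ F, (qq v.1 : ℝ) ≤ X) →
      ∑ v ∈ F, (rad (γ v) ^ 2 / (qq v.1 : ℝ)) ^ (N / 2) ≤
        A * (1 + Real.log (Real.log X) + Real.log (cond κ Q)) := by
  obtain ⟨A, hA, H⟩ := mean_le K N r hN
  refine ⟨Real.exp 1 * A, by positivity, fun S γ β κ Q h hU X hX F hF => ?_⟩
  exact mertens_of (f := fun v => (rad (γ v) ^ 2 / (qq v.1 : ℝ)) ^ (N / 2)) (fun v => by positivity) hX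
    (fun δ hδ hδ1 => H δ hδ hδ1 S γ β κ Q h hU) F hF

/-- the least place with small parameters, from a bound for the number of the other places -/
theorem least_place (K : Type) [Field K] [NumberField K] {m : ℕ} {θ B : ℝ} (hθ : θ ≤ 1 / 2)
    (hc : (m : ℝ) * (1 - 2 * θ) < 1) (hB : 1 / (1 - (m : ℝ) * (1 - 2 * θ)) < B) :
    ∃ δ : ℝ, 0 < δ ∧ δ ≤ 1 ∧ ∀ A : ℝ, 0 < A → ∃ A' : ℝ, 0 < A' ∧
      ∀ (S : Finset (HeightOneSpectrum (𝓞 K))) (L : ℝ), 1 ≤ L → (S.card : ℝ) ≤ 2 * L →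
      ∀ R : PL S → ℝ, (∀ v, 0 ≤ R v) →
        Summable (fun v : PL S => (R v ^ 2 / (qq v.1 : ℝ)) ^ m * (qq v.1 : ℝ) ^ (-δ)) →
        ∑' v : PL S, (R v ^ 2 / (qq v.1 : ℝ)) ^ m * (qq v.1 : ℝ) ^ (-δ) ≤ A * L →
        ∃ v : PL S, (qq v.1 : ℝ) ≤ A' * L ^ B ∧ R v < (qq v.1 : ℝ) ^ θ := by
  obtain ⟨c, hcd⟩ : ∃ c : ℝ, c = (m : ℝ) * (1 - 2 * θ) := ⟨_, rfl⟩
  rw [← hcd] at hc hB
  have hc0 : 0 ≤ c := by
    rw [hcd]
    have : 0 ≤ 1 - 2 * θ := by linarith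
    positivity
  have hc2 : 0 < 1 - c := by linarith
  have hB0 : 0 < B := lt_trans (by positivity) hB
  have hB1 : 1 / B < 1 - c := by
    rw [div_lt_iff₀ hc2] at hB
    rw [div_lt_iff₀ hB0]
    linarith
  obtain ⟨δ, hδ⟩ : ∃ δ : ℝ, δ = (1 - c - 1 / B) / 2 := ⟨_, rfl⟩
  have hδ0 : 0 < δ := by rw [hδ]; linarith
  have hiB : 0 < 1 / B := by positivity
  refine ⟨δ, hδ0, by rw [hδ]; linarith, fun A hA => ?_⟩
  obtain ⟨A', hA', H⟩ := least K (c := c + δ) (B := B) (A := A) (by positivity) (by rw [hδ]; linarith)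
    (by
      have h1 : 0 < 1 - (c + δ) := by rw [hδ]; linarith
      rw [div_lt_iff₀ h1]
      have h2 : 1 / B < 1 - (c + δ) := by rw [hδ]; linarith
      rw [div_lt_iff₀ hB0] at h2
      linarith) hA
  refine ⟨A', hA', fun S L hL hS R hR hs h => ?_⟩
  obtain ⟨v, hv1, hv2⟩ := H S L hL hS {v : PL S | (qq v.1 : ℝ) ^ θ ≤ R v} (fun X hX => by
    obtain ⟨b1, b2⟩ := count_le (m := m) hR hδ0.le hθ hX hs h
    refine ⟨b1, b2.trans (le_of_eq ?_)⟩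
    rw [← hcd]
    ring)
  exact ⟨v, hv1, not_le.1 hv2⟩

/-! ## `GL(4)` -/

/-- the parameters of the exterior square -/
def wedge (z : Fin 4 → ℂ) : Fin 6 → ℂ :=
  ![z 0 * z 1, z 0 * z 2, z 0 * z 3, z 1 * z 2, z 1 * z 3, z 2 * z 3]

theorem wedge_sum (z : Fin 4 → ℂ) : 2 * ∑ i, wedge z i = (∑ i, z i) ^ 2 - ∑ i, z i ^ 2 := by
  simp only [wedge, Fin.sum_univ_succ, Fin.sum_univ_zero, Matrix.cons_val_zero, Matrix.cons_val_succ,
    Fin.succ_zero_eq_one, Fin.succ_one_eq_two]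
  have : (Fin.succ (2 : Fin 3)) = (3 : Fin 4) := rfl
  simp only [this]
  ring

theorem local4 {z : Fin 4 → ℂ} (hU : Unit' z) :
    rad z ^ 2 ≤ 1024 + 16 * ‖∑ i, z i‖ ^ 2 + 256 * ‖∑ i, wedge z i‖ ^ 2 := by
  obtain ⟨i, hi⟩ := rad_eq (by norm_num : 0 < 4) z
  have hR0 := rad_nonneg z
  obtain ⟨R, hR⟩ : ∃ R : ℝ, R = rad z := ⟨_, rfl⟩
  rw [← hR] at hi hR0 ⊢
  have hp := sq_nonneg ‖∑ i, z i‖
  have hw := sq_nonneg ‖∑ i, wedge z i‖
  rcases lt_or_ge R 32 with hs | hl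
  · nlinarith
  · obtain ⟨k, hk1, hk2, hk3⟩ := psum_large hU i (by rw [hi]; norm_num; exact hl)
    rw [hi] at hk3
    have hk : k = 1 ∨ k = 2 := by omega
    rcases hk with rfl | rfl
    · simp only [pow_one] at hk3
      push_cast at hk3
      have : R ^ 2 ≤ (4 * ‖∑ i, z i‖) ^ 2 := pow_le_pow_left₀ hR0 hk3 2
      nlinarith
    · push_cast at hk3
      have h1 : ∑ j, z j ^ 2 = (∑ i, z i) ^ 2 - 2 * ∑ i, wedge z i := by rw [wedge_sum]; ring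
      have h2 : ‖∑ j, z j ^ 2‖ ≤ ‖∑ i, z i‖ ^ 2 + 2 * ‖∑ i, wedge z i‖ := by
        rw [h1]
        refine (norm_sub_le _ _).trans (le_of_eq ?_)
        rw [norm_pow, norm_mul]
        norm_num
      have h3 : R ^ 2 ≤ 4 * (‖∑ i, z i‖ ^ 2 + 2 * ‖∑ i, wedge z i‖) := hk3.trans (by linarith)
      rcases le_total (R ^ 2) (8 * ‖∑ i, z i‖ ^ 2) with h4 | h4
      · nlinarith
      · have h5 : R ^ 2 ≤ 16 * ‖∑ i, wedge z i‖ := by linarith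
        have h6 : (R ^ 2) ^ 2 ≤ (16 * ‖∑ i, wedge z i‖) ^ 2 := pow_le_pow_left₀ (by positivity) h5 2
        have h7 : R ^ 2 ≤ (R ^ 2) ^ 2 := by
          have : 1 ≤ R ^ 2 := by nlinarith
          nlinarith
        nlinarith

/-- **the mean value for `GL(4)`** -/
theorem mean4_le (K : Type*) [Field K] [NumberField K] (r r' : ℕ) :
    ∃ A : ℝ, 0 < A ∧ ∀ δ : ℝ, 0 < δ → δ ≤ 1 → ∀ (S : Finset (HeightOneSpectrum (𝓞 K))) (α : PL S → Fin 4 → ℂ)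
      (β : S → Fin (4 ^ 2) → ℂ) (κ : Fin (4 ^ 2 * Module.finrank ℚ K) → ℂ) (Q : ℝ)
      (β' : S → Fin (6 ^ 2) → ℂ) (κ' : Fin (6 ^ 2 * Module.finrank ℚ K) → ℂ) (Q' : ℝ),
      RankinSelberg r α β κ Q → RankinSelberg r' (fun v => wedge (α v)) β' κ' Q' → (∀ v, Unit' (α v)) →
      Summable (fun v : PL S => rad (α v) ^ 2 / (qq v.1 : ℝ) * (qq v.1 : ℝ) ^ (-δ)) ∧
      ∑' v : PL S, rad (α v) ^ 2 / (qq v.1 : ℝ) * (qq v.1 : ℝ) ^ (-δ) ≤
        A * (1 + Real.log (1 / δ) + (Real.log (cond κ Q) + Real.log (cond κ' Q'))) := by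
  obtain ⟨A1, hA1, H1⟩ := TT_le K 4 r
  obtain ⟨A2, hA2, H2⟩ := TT_le K 6 r'
  obtain ⟨A3, hA3, H3⟩ := ZS_le K
  refine ⟨1024 * A3 + 16 * A1 + 256 * A2, by positivity, ?_⟩
  intro δ hδ hδ1 S α β κ Q β' κ' Q' h h' hU
  have hσ : 1 < 1 + δ := by linarith
  obtain ⟨s1, s2⟩ := sel_le h hσ (fun _ => 0)
  obtain ⟨t1, t2⟩ := sel_le h' hσ (fun _ => 0)
  have s3 := summable_qq (S := S) (σ := 1 + δ) hσ
  have e : ∀ {M : ℕ} (γ : PL S → Fin M → ℂ) (v : PL S), trm γ (1 + δ) (v, 0) =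
      ‖∑ i, γ v i‖ ^ 2 * (qq v.1 : ℝ) ^ (-(1 + δ)) := by
    intro M γ v
    unfold trm cf
    simp
  have hk : ∀ v : PL S, rad (α v) ^ 2 / (qq v.1 : ℝ) * (qq v.1 : ℝ) ^ (-δ) ≤
      (1024 * (qq v.1 : ℝ) ^ (-(1 + δ)) + 16 * trm α (1 + δ) (v, 0)) +
        256 * trm (fun v => wedge (α v)) (1 + δ) (v, 0) := by
    intro v
    have hq := qq_pos v.1
    rw [e, e]
    have e1 : rad (α v) ^ 2 / (qq v.1 : ℝ) * (qq v.1 : ℝ) ^ (-δ) =
        rad (α v) ^ 2 * (qq v.1 : ℝ) ^ (-(1 + δ)) := by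
      have : (qq v.1 : ℝ) ^ (-(1 + δ)) = (qq v.1 : ℝ)⁻¹ * (qq v.1 : ℝ) ^ (-δ) := by
        rw [← Real.rpow_neg_one, ← Real.rpow_add hq]
        congr 1
        ring
      rw [this, div_eq_mul_inv, mul_assoc]
    rw [e1]
    have h1 := mul_le_mul_of_nonneg_right (local4 (hU v))
      (show 0 ≤ (qq v.1 : ℝ) ^ (-(1 + δ)) by positivity)
    refine h1.trans (le_of_eq ?_)
    ring
  have s4 := ((s3.mul_left 1024).add (s1.mul_left 16)).add (t1.mul_left 256)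
  have s5 : Summable (fun v : PL S => rad (α v) ^ 2 / (qq v.1 : ℝ) * (qq v.1 : ℝ) ^ (-δ)) :=
    Summable.of_nonneg_of_le (fun v => by positivity) hk s4
  refine ⟨s5, ?_⟩
  have hT := H1 δ hδ hδ1 S α β κ Q h
  have hT' := H2 δ hδ hδ1 S (fun v => wedge (α v)) β' κ' Q' h'
  have hc := Real.log_nonneg (one_le_cond h)
  have hc' := Real.log_nonneg (one_le_cond h')
  have h14 : 0 ≤ Real.log (1 / δ) := Real.log_nonneg (by rw [le_div_iff₀ hδ]; linarith)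
  have hZ1 := (sum_PL_le (S := S) (σ := 1 + δ) hσ).trans (H3 δ hδ hδ1)
  calc _ ≤ ∑' v : PL S, ((1024 * (qq v.1 : ℝ) ^ (-(1 + δ)) + 16 * trm α (1 + δ) (v, 0)) +
        256 * trm (fun v => wedge (α v)) (1 + δ) (v, 0)) := s5.tsum_le_tsum hk s4
    _ = (1024 * ∑' v : PL S, (qq v.1 : ℝ) ^ (-(1 + δ)) + 16 * ∑' v : PL S, trm α (1 + δ) (v, 0)) +
        256 * ∑' v : PL S, trm (fun v => wedge (α v)) (1 + δ) (v, 0) := by
      rw [((s3.mul_left _).add (s1.mul_left _)).tsum_add (t1.mul_left _),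
        (s3.mul_left _).tsum_add (s1.mul_left _), tsum_mul_left, tsum_mul_left, tsum_mul_left]
    _ ≤ (1024 * (A3 * (1 + Real.log (1 / δ))) +
          16 * (A1 * (1 + Real.log (1 / δ) + Real.log (cond κ Q)))) +
        256 * (A2 * (1 + Real.log (1 / δ) + Real.log (cond κ' Q'))) := by
      refine add_le_add (add_le_add (mul_le_mul_of_nonneg_left hZ1 (by positivity))
        (mul_le_mul_of_nonneg_left (s2.trans hT) (by positivity)))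
        (mul_le_mul_of_nonneg_left (t2.trans hT') (by positivity))
    _ ≤ _ := by
      obtain ⟨x, hx⟩ : ∃ x : ℝ, x = Real.log (cond κ Q) := ⟨_, rfl⟩
      obtain ⟨y, hy⟩ : ∃ y : ℝ, y = Real.log (cond κ' Q') := ⟨_, rfl⟩
      obtain ⟨z, hz⟩ : ∃ z : ℝ, z = Real.log (1 / δ) := ⟨_, rfl⟩
      rw [← hx] at hc ⊢
      rw [← hy] at hc' ⊢
      rw [← hz] at h14 ⊢
      have a1 : 0 ≤ A3 * x := by positivity
      have a2 : 0 ≤ A3 * y := by positivity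
      have a3 : 0 ≤ A1 * y := by positivity
      have a4 : 0 ≤ A2 * x := by positivity
      linarith [show (1024 * A3 + 16 * A1 + 256 * A2) * (1 + z + (x + y)) =
        1024 * (A3 * (1 + z)) + 1024 * (A3 * x) + 1024 * (A3 * y) + 16 * (A1 * (1 + z + x)) +
          16 * (A1 * y) + 256 * (A2 * (1 + z + y)) + 256 * (A2 * x) by ring]

/-- **The mean value for `GL(4)`** in Mertens form. -/
theorem mertens4 (K : Type*) [Field K] [NumberField K] (r r' : ℕ) :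
    ∃ A : ℝ, 0 < A ∧ ∀ (S : Finset (HeightOneSpectrum (𝓞 K))) (α : PL S → Fin 4 → ℂ)
      (β : S → Fin (4 ^ 2) → ℂ) (κ : Fin (4 ^ 2 * Module.finrank ℚ K) → ℂ) (Q : ℝ)
      (β' : S → Fin (6 ^ 2) → ℂ) (κ' : Fin (6 ^ 2 * Module.finrank ℚ K) → ℂ) (Q' : ℝ),
      RankinSelberg r α β κ Q → RankinSelberg r' (fun v => wedge (α v)) β' κ' Q' → (∀ v, Unit' (α v)) →
      ∀ X : ℝ, 3 ≤ X → ∀ F : Finset (PL S), (∀ v ∈ F, (qq v.1 : ℝ) ≤ X) →
      ∑ v ∈ F, rad (α v) ^ 2 / (qq v.1 : ℝ) ≤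
        A * (1 + Real.log (Real.log X) + (Real.log (cond κ Q) + Real.log (cond κ' Q'))) := by
  obtain ⟨A, hA, H⟩ := mean4_le K r r'
  refine ⟨Real.exp 1 * A, by positivity, fun S α β κ Q β' κ' Q' h h' hU X hX F hF => ?_⟩
  exact mertens_of (f := fun v => rad (α v) ^ 2 / (qq v.1 : ℝ)) (fun v => by positivity) hX
    (fun δ hδ hδ1 => H δ hδ hδ1 S α β κ Q β' κ' Q' h h' hU) F hF

end Pool.Agent.TH829.RA
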