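import Mathlib
import Pool.Agent.TH829.RA.Final

/-! Maass forms of level one and the symmetric fourth power. -/

set_option autoImplicit false

namespace Pool.Agent.TH829.RA

open NumberField IsDedekindDomain Filter Topology Pool.Agent.TH861.GL3

/-- the primes, as the finite places of `ℚ` -/
abbrev PQ : Type := PL (∅ : Finset (HeightOneSpectrum (𝓞 ℚ)))

/-- the Satake parameters `a⁴, a³b, a²b², ab³, b⁴` of the symmetric fourth power -/
def sym4 (z : Fin 2 → ℂ) : Fin 5 → ℂ := fun i => z 0 ^ (4 - (i : ℕ)) * z 1 ^ (i : ℕ)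

/-- the parameters `2 i t (j - k)`, `0 ≤ j, k ≤ 4`, of the local factor of `L(s, Sym⁴ φ × Sym⁴ φ)` at infinity -/
noncomputable def kap (t : ℝ) {M : ℕ} : Fin M → ℂ :=
  fun j => ((2 * t * (((j : ℕ) / 5 : ℕ) - ((j : ℕ) % 5 : ℕ) : ℝ) : ℝ) : ℂ) * Complex.I

/-- Properties of the Satake parameters `α_p = {a_p, 1 / a_p}` of a Maass cusp form `φ` of level one with the
eigenvalue `1/4 + t²` of the Laplace operator: the local components are unitary, and `L(s, Sym⁴ φ × Sym⁴ φ)` has the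
properties of the Rankin-Selberg `L`-function of a cuspidal automorphic representation of `GL_5` unramified at all
primes (Kim, Kim-Shahidi). -/
structure MaassForm (t : ℝ) (α : PQ → Fin 2 → ℂ) : Prop where
  /-- the local components are unitary -/
  unitary : ∀ p, Unit' (α p)
  /-- the central character is trivial -/
  det : ∀ p, α p 0 * α p 1 = 1
  /-- the Rankin-Selberg `L`-function of the symmetric fourth power -/
  rs : ∃ β, RankinSelberg 1 (fun p => sym4 (α p)) β (kap t) 1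

theorem rad2 {z : Fin 2 → ℂ} (hU : Unit' z) (hd : z 0 * z 1 = 1) :
    (rad z ^ 4) ^ 2 ≤ 1 + ‖∑ i, sym4 z i‖ ^ 2 := by
  have h0 := hU.1 0
  have h1 := hU.1 1
  have hz1 : z 1 = (z 0)⁻¹ := eq_inv_of_mul_eq_one_right hd
  obtain ⟨i, hi⟩ := rad_eq (by norm_num : 0 < 2) z
  have hmem : ((starRingEnd ℂ) (z 0))⁻¹ ∈ Multiset.map z Finset.univ.val := by
    rw [← hU.2]
    exact Multiset.mem_map.2 ⟨0, Finset.mem_univ_val _, rfl⟩
  rw [Multiset.mem_map] at hmem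
  obtain ⟨j, _, hj⟩ := hmem
  have hcase : (‖z 0‖ = 1) ∨ ((starRingEnd ℂ) (z 0) = z 0) := by
    fin_cases j
    · left
      have e : z 0 * (starRingEnd ℂ) (z 0) = 1 := by
        have : z 0 = ((starRingEnd ℂ) (z 0))⁻¹ := hj
        have hne : (starRingEnd ℂ) (z 0) ≠ 0 := (map_ne_zero _).2 h0
        calc z 0 * (starRingEnd ℂ) (z 0) = ((starRingEnd ℂ) (z 0))⁻¹ * (starRingEnd ℂ) (z 0) := by rw [← this]
          _ = 1 := inv_mul_cancel₀ hne
      rw [Complex.mul_conj, Complex.normSq_eq_norm_sq] at e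
      have e2 : ‖z 0‖ ^ 2 = 1 := by exact_mod_cast e
      have := norm_nonneg (z 0)
      nlinarith
    · right
      have : z 1 = ((starRingEnd ℂ) (z 0))⁻¹ := hj
      rw [hz1] at this
      exact (inv_injective this).symm
  rcases hcase with hc | hc
  · have hr : rad z = 1 := by
      rw [← hi]
      fin_cases i
      · exact hc
      · show ‖z 1‖ = 1
        rw [hz1, norm_inv, hc, inv_one]
    rw [hr]
    have := sq_nonneg ‖∑ i, sym4 z i‖
    linarith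
  · -- real parameters
    obtain ⟨a, ha⟩ : ∃ a : ℝ, (a : ℂ) = z 0 := Complex.conj_eq_iff_real.1 hc |>.imp fun a h => h.symm
    have ha0 : a ≠ 0 := by
      rintro rfl
      exact h0 (by rw [← ha]; simp)
    have hz1' : z 1 = ((a⁻¹ : ℝ) : ℂ) := by rw [hz1, ← ha, Complex.ofReal_inv]
    have hs : ∑ i, sym4 z i = ((a ^ 4 + a ^ 2 + 1 + (a⁻¹) ^ 2 + (a⁻¹) ^ 4 : ℝ) : ℂ) := by
      simp only [sym4, Fin.sum_univ_succ, Fin.sum_univ_zero, hz1', ← ha]
      have ha' : (a : ℂ) ≠ 0 := by exact_mod_cast ha0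
      simp
      field_simp
      ring
    rw [hs, Complex.norm_real, Real.norm_eq_abs, sq_abs]
    have e1 : rad z ^ 4 ≤ a ^ 4 + a ^ 2 + 1 + (a⁻¹) ^ 2 + (a⁻¹) ^ 4 := by
      rw [← hi]
      fin_cases i
      · show ‖z 0‖ ^ 4 ≤ _
        rw [← ha, Complex.norm_real, Real.norm_eq_abs]
        have : |a| ^ 4 = a ^ 4 := by
          rw [show (4 : ℕ) = 2 * 2 by norm_num, pow_mul, pow_mul, sq_abs]
        rw [this]
        nlinarith [sq_nonneg a, sq_nonneg (a⁻¹), sq_nonneg (a ^ 2), sq_nonneg (a⁻¹ ^ 2)]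
      · show ‖z 1‖ ^ 4 ≤ _
        rw [hz1', Complex.norm_real, Real.norm_eq_abs]
        have : |a⁻¹| ^ 4 = a⁻¹ ^ 4 := by
          rw [show (4 : ℕ) = 2 * 2 by norm_num, pow_mul, pow_mul, sq_abs]
        rw [this]
        nlinarith [sq_nonneg a, sq_nonneg (a⁻¹), sq_nonneg (a ^ 2), sq_nonneg (a⁻¹ ^ 2)]
    have e2 : 0 ≤ rad z ^ 4 := by
      have := rad_nonneg z
      positivity
    have := pow_le_pow_left₀ e2 e1 2
    linarith

/-- the conductor -/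
theorem cond_kap (t : ℝ) : cond (kap t : Fin (5 ^ 2 * Module.finrank ℚ ℚ) → ℂ) 1 ≤ (1 + 8 * |t|) ^ 25 := by
  unfold cond
  rw [one_pow, one_mul]
  calc ∏ j : Fin (5 ^ 2 * Module.finrank ℚ ℚ), (1 + ‖kap t j‖)
      ≤ ∏ _j : Fin (5 ^ 2 * Module.finrank ℚ ℚ), (1 + 8 * |t|) := by
        refine Finset.prod_le_prod (fun j _ => by positivity) fun j _ => ?_
        unfold kap
        rw [norm_mul, Complex.norm_I, mul_one, Complex.norm_real, Real.norm_eq_abs, abs_mul, abs_mul]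
        have hj : (j : ℕ) < 25 := by
          have h25 : 5 ^ 2 * Module.finrank ℚ ℚ = 25 := by rw [Module.finrank_self]; norm_num
          exact lt_of_lt_of_eq j.2 h25
        have h1 : (((j : ℕ) / 5 : ℕ) : ℝ) ≤ 4 := by
          have : (j : ℕ) / 5 ≤ 4 := by omega
          exact_mod_cast this
        have h2 : (((j : ℕ) % 5 : ℕ) : ℝ) ≤ 4 := by
          have : (j : ℕ) % 5 ≤ 4 := by omega
          exact_mod_cast this
        have h3 : (0 : ℝ) ≤ (((j : ℕ) / 5 : ℕ) : ℝ) := Nat.cast_nonneg _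
        have h4 : (0 : ℝ) ≤ (((j : ℕ) % 5 : ℕ) : ℝ) := Nat.cast_nonneg _
        have h5 : |(((j : ℕ) / 5 : ℕ) : ℝ) - (((j : ℕ) % 5 : ℕ) : ℝ)| ≤ 4 := by
          rw [abs_le]
          constructor <;> linarith
        have h6 : |(2 : ℝ)| = 2 := by norm_num
        rw [h6]
        have := mul_le_mul_of_nonneg_left h5 (by positivity : 0 ≤ 2 * |t|)
        linarith
    _ = _ := by
      rw [Finset.prod_const, Finset.card_univ, Fintype.card_fin, Module.finrank_self]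
      norm_num

theorem log_cond_kap {t : ℝ} :
    Real.log (cond (kap t : Fin (5 ^ 2 * Module.finrank ℚ ℚ) → ℂ) 1) ≤ 200 * (1 + Real.log (1 + |t|)) := by
  have h0 := abs_nonneg t
  have h1 : 0 < cond (kap t : Fin (5 ^ 2 * Module.finrank ℚ ℚ) → ℂ) 1 := by
    unfold cond
    positivity
  have h2 := Real.log_le_log h1 (cond_kap t)
  rw [Real.log_pow] at h2
  have h3 : Real.log (1 + 8 * |t|) ≤ Real.log 8 + Real.log (1 + |t|) := by
    rw [← Real.log_mul (by norm_num) (by positivity)]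
    exact Real.log_le_log (by positivity) (by linarith)
  have h4 : Real.log 8 ≤ 7 := by
    have := Real.log_le_sub_one_of_pos (show (0 : ℝ) < 8 by norm_num)
    linarith
  have h5 : 0 ≤ Real.log (1 + |t|) := Real.log_nonneg (by linarith)
  push_cast at h2
  linarith

/-- **the mean value for Maass forms of level one** -/
theorem mean_sym4 : ∃ A : ℝ, 0 < A ∧ ∀ δ : ℝ, 0 < δ → δ ≤ 1 → ∀ (t : ℝ) (α : PQ → Fin 2 → ℂ),
    MaassForm t α →
      Summable (fun v : PQ => (rad (α v) ^ 4) ^ 2 / (qq v.1 : ℝ) * (qq v.1 : ℝ) ^ (-δ)) ∧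
      ∑' v : PQ, (rad (α v) ^ 4) ^ 2 / (qq v.1 : ℝ) * (qq v.1 : ℝ) ^ (-δ) ≤
        A * (1 + Real.log (1 / δ) + Real.log (1 + |t|)) := by
  obtain ⟨A1, hA1, H1⟩ := TT_le ℚ 5 1
  obtain ⟨A3, hA3, H3⟩ := ZS_le ℚ
  refine ⟨A3 + 201 * A1, by positivity, ?_⟩
  intro δ hδ hδ1 t α h
  obtain ⟨β, hR⟩ := h.rs
  have hσ : 1 < 1 + δ := by linarith
  obtain ⟨s1, s2⟩ := sel_le hR hσ (fun _ => 0)
  have s3 := summable_qq (S := (∅ : Finset (HeightOneSpectrum (𝓞 ℚ)))) (σ := 1 + δ) hσ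
  have e : ∀ {M : ℕ} (γ : PQ → Fin M → ℂ) (v : PQ), trm γ (1 + δ) (v, 0) =
      ‖∑ i, γ v i‖ ^ 2 * (qq v.1 : ℝ) ^ (-(1 + δ)) := by
    intro M γ v
    unfold trm cf
    simp
  have hk : ∀ v : PQ, (rad (α v) ^ 4) ^ 2 / (qq v.1 : ℝ) * (qq v.1 : ℝ) ^ (-δ) ≤
      (qq v.1 : ℝ) ^ (-(1 + δ)) + trm (fun p => sym4 (α p)) (1 + δ) (v, 0) := by
    intro v
    have hq := qq_pos v.1
    rw [e]
    have e1 : (rad (α v) ^ 4) ^ 2 / (qq v.1 : ℝ) * (qq v.1 : ℝ) ^ (-δ) =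
        (rad (α v) ^ 4) ^ 2 * (qq v.1 : ℝ) ^ (-(1 + δ)) := by
      have : (qq v.1 : ℝ) ^ (-(1 + δ)) = (qq v.1 : ℝ)⁻¹ * (qq v.1 : ℝ) ^ (-δ) := by
        rw [← Real.rpow_neg_one, ← Real.rpow_add hq]
        congr 1
        ring
      rw [this, div_eq_mul_inv, mul_assoc]
    rw [e1]
    have h1 := mul_le_mul_of_nonneg_right (rad2 (h.unitary v) (h.det v))
      (show 0 ≤ (qq v.1 : ℝ) ^ (-(1 + δ)) by positivity)
    refine h1.trans (le_of_eq ?_)
    ring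
  have s4 := s3.add s1
  have hnn : ∀ v : PQ, 0 ≤ (rad (α v) ^ 4) ^ 2 / (qq v.1 : ℝ) * (qq v.1 : ℝ) ^ (-δ) := fun v => by positivity
  have s5 : Summable (fun v : PQ => (rad (α v) ^ 4) ^ 2 / (qq v.1 : ℝ) * (qq v.1 : ℝ) ^ (-δ)) :=
    Summable.of_nonneg_of_le hnn hk s4
  refine ⟨s5, ?_⟩
  have hT := H1 δ hδ hδ1 ∅ (fun p => sym4 (α p)) β (kap t) 1 hR
  have hlc := log_cond_kap (t := t)
  have hc : 0 ≤ Real.log (1 + |t|) := Real.log_nonneg (by linarith [abs_nonneg t])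
  have h14 : 0 ≤ Real.log (1 / δ) := Real.log_nonneg (by rw [le_div_iff₀ hδ]; linarith)
  have hZ1 := (sum_PL_le (S := (∅ : Finset (HeightOneSpectrum (𝓞 ℚ)))) (σ := 1 + δ) hσ).trans (H3 δ hδ hδ1)
  calc _ ≤ ∑' v : PQ, ((qq v.1 : ℝ) ^ (-(1 + δ)) + trm (fun p => sym4 (α p)) (1 + δ) (v, 0)) :=
        s5.tsum_le_tsum hk s4
    _ = ∑' v : PQ, (qq v.1 : ℝ) ^ (-(1 + δ)) + ∑' v : PQ, trm (fun p => sym4 (α p)) (1 + δ) (v, 0) :=
        s3.tsum_add s1
    _ ≤ A3 * (1 + Real.log (1 / δ)) +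
        A1 * (1 + Real.log (1 / δ) + Real.log (cond (kap t : Fin (5 ^ 2 * Module.finrank ℚ ℚ) → ℂ) 1)) :=
        add_le_add hZ1 (s2.trans hT)
    _ ≤ A3 * (1 + Real.log (1 / δ)) +
        A1 * (1 + Real.log (1 / δ) + 200 * (1 + Real.log (1 + |t|))) := by
      refine add_le_add le_rfl (mul_le_mul_of_nonneg_left (by linarith) hA1.le)
    _ ≤ _ := by
      obtain ⟨y, hy⟩ : ∃ y : ℝ, y = Real.log (1 + |t|) := ⟨_, rfl⟩
      obtain ⟨z, hz⟩ : ∃ z : ℝ, z = Real.log (1 / δ) := ⟨_, rfl⟩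
      rw [← hy] at hc ⊢
      rw [← hz] at h14 ⊢
      have a1 : 0 ≤ A3 * y := by positivity
      have a2 : 0 ≤ A1 * z := by positivity
      have a3 : 0 ≤ A1 * y := by positivity
      linarith [show (A3 + 201 * A1) * (1 + z + y) =
        A3 * (1 + z) + A3 * y + A1 * (1 + z + 200 * (1 + y)) + 200 * (A1 * z) + A1 * y by ring]

/-- Mertens form -/
theorem mertens_sym4 : ∃ A : ℝ, 0 < A ∧ ∀ (t : ℝ) (α : PQ → Fin 2 → ℂ), MaassForm t α →
    ∀ X : ℝ, 3 ≤ X → ∀ F : Finset PQ, (∀ v ∈ F, (qq v.1 : ℝ) ≤ X) →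
      ∑ v ∈ F, (rad (α v) ^ 4) ^ 2 / (qq v.1 : ℝ) ≤
        A * (1 + Real.log (Real.log X) + Real.log (1 + |t|)) := by
  obtain ⟨A, hA, H⟩ := mean_sym4
  refine ⟨Real.exp 1 * A, by positivity, fun t α h X hX F hF => ?_⟩
  exact mertens_of (f := fun v => (rad (α v) ^ 4) ^ 2 / (qq v.1 : ℝ)) (fun v => by positivity) hX
    (fun δ hδ hδ1 => H δ hδ hδ1 t α h) F hF

end Pool.Agent.TH829.RA
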