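import Mathlib
import Pool.Agent.TH829.RA.Sym4

/-! Characters of weight 2 of the Hecke algebra of `GL(2)` over a number field. -/

set_option autoImplicit false

namespace Pool.Agent.TH829.RA

open NumberField IsDedekindDomain Filter Topology Pool.Agent.TH861.GL3

theorem rad_two (z : Fin 2 → ℂ) : rad z = ‖z 0‖ ∨ rad z = ‖z 1‖ := by
  obtain ⟨i, hi⟩ := rad_eq (by norm_num : 0 < 2) z
  fin_cases i
  · exact Or.inl hi.symm
  · exact Or.inr hi.symm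

/-- the parameters of a unitary representation of `GL(2)` -/
theorem unit_two {z : Fin 2 → ℂ} (hU : Unit' z) :
    (‖z 0‖ = 1 ∧ ‖z 1‖ = 1) ∨ z 1 = ((starRingEnd ℂ) (z 0))⁻¹ := by
  have h := hU.2
  have e : (Finset.univ.val : Multiset (Fin 2)) = {0, 1} := rfl
  rw [e] at h
  simp only [Multiset.insert_eq_cons, Multiset.map_cons, Multiset.map_singleton] at h
  have key : ∀ w : ℂ, w ≠ 0 → ((starRingEnd ℂ) w)⁻¹ = w → ‖w‖ = 1 := by
    intro w hw h1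
    have hne : (starRingEnd ℂ) w ≠ 0 := (map_ne_zero _).2 hw
    have e1 : w * (starRingEnd ℂ) w = 1 := by
      nth_rewrite 1 [← h1]
      exact inv_mul_cancel₀ hne
    rw [Complex.mul_conj, Complex.normSq_eq_norm_sq] at e1
    have e2 : ‖w‖ ^ 2 = 1 := by exact_mod_cast e1
    have := norm_nonneg w
    nlinarith
  rcases Multiset.cons_eq_cons.1 h with ⟨h1, h2⟩ | ⟨_, cs, h1, h2⟩
  · left
    exact ⟨key _ (hU.1 0) h1, key _ (hU.1 1) (Multiset.singleton_inj.1 h2)⟩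
  · right
    have hcs : cs = 0 := by
      have := congrArg Multiset.card h2
      simp only [Multiset.card_singleton, Multiset.card_cons] at this
      exact Multiset.card_eq_zero.1 (by omega)
    rw [hcs] at h2
    exact Multiset.singleton_inj.1 h2

theorem rad2' {z : Fin 2 → ℂ} (hU : Unit' z) :
    (rad z ^ 4) ^ 2 ≤ 1 + ‖∑ i, sym4 z i‖ ^ 2 := by
  rcases unit_two hU with ⟨h0, h1⟩ | h
  · have hr : rad z = 1 := by
      rcases rad_two z with h | h <;> rw [h]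
      · exact h0
      · exact h1
    rw [hr]
    have := sq_nonneg ‖∑ i, sym4 z i‖
    linarith
  · have h0 := hU.1 0
    obtain ⟨a, ha⟩ : ∃ a : ℝ, a = ‖z 0‖ := ⟨_, rfl⟩
    have ha0 : 0 < a := by rw [ha]; exact norm_pos_iff.2 h0
    have hc : (starRingEnd ℂ) (z 0) ≠ 0 := (map_ne_zero _).2 h0
    obtain ⟨u, hu⟩ : ∃ u : ℂ, u = z 0 / a := ⟨_, rfl⟩
    have ha0' : (a : ℂ) ≠ 0 := by exact_mod_cast ha0.ne'
    have hz0 : z 0 = a * u := by rw [hu]; field_simp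
    have hzz : z 0 * (starRingEnd ℂ) (z 0) = (a : ℂ) ^ 2 := by
      rw [Complex.mul_conj, Complex.normSq_eq_norm_sq, ← ha]
      push_cast
      ring
    have hz1 : z 1 = (a : ℂ)⁻¹ * u := by
      rw [h, hu]
      field_simp
      rw [← hzz]
      ring
    have hun : ‖u‖ = 1 := by
      rw [hu, norm_div, ← ha, Complex.norm_real, Real.norm_eq_abs, abs_of_pos ha0, div_self ha0.ne']
    have hs : ∑ i, sym4 z i = ((a ^ 4 + a ^ 2 + 1 + (a⁻¹) ^ 2 + (a⁻¹) ^ 4 : ℝ) : ℂ) * u ^ 4 := by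
      simp only [sym4, Fin.sum_univ_succ, Fin.sum_univ_zero, hz1, hz0]
      simp
      field_simp
      ring
    have hn : ‖∑ i, sym4 z i‖ = a ^ 4 + a ^ 2 + 1 + (a⁻¹) ^ 2 + (a⁻¹) ^ 4 := by
      rw [hs, norm_mul, norm_pow, hun, one_pow, mul_one, Complex.norm_real, Real.norm_eq_abs, abs_of_nonneg]
      positivity
    rw [hn]
    have e1 : rad z ^ 4 ≤ a ^ 4 + a ^ 2 + 1 + (a⁻¹) ^ 2 + (a⁻¹) ^ 4 := by
      rcases rad_two z with h | h <;> rw [h]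
      · rw [← ha]
        have : 0 ≤ a ^ 2 + 1 + (a⁻¹) ^ 2 + (a⁻¹) ^ 4 := by positivity
        linarith
      · rw [hz1, norm_mul, hun, mul_one, norm_inv, Complex.norm_real, Real.norm_eq_abs, abs_of_pos ha0]
        have : 0 ≤ a ^ 4 + a ^ 2 + 1 + (a⁻¹) ^ 2 := by positivity
        linarith
    have e2 : 0 ≤ rad z ^ 4 := by
      have := rad_nonneg z
      positivity
    have := pow_le_pow_left₀ e2 e1 2
    linarith

/-- **the mean value for `GL(2)`** -/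
theorem mean_w2 (K : Type*) [Field K] [NumberField K] (r : ℕ) :
    ∃ A : ℝ, 0 < A ∧ ∀ δ : ℝ, 0 < δ → δ ≤ 1 → ∀ (S : Finset (HeightOneSpectrum (𝓞 K))) (α : PL S → Fin 2 → ℂ)
      (β : S → Fin (5 ^ 2) → ℂ) (κ : Fin (5 ^ 2 * Module.finrank ℚ K) → ℂ) (Q : ℝ),
      RankinSelberg r (fun v => sym4 (α v)) β κ Q → (∀ v, Unit' (α v)) →
      Summable (fun v : PL S => (rad (α v) ^ 4) ^ 2 / (qq v.1 : ℝ) * (qq v.1 : ℝ) ^ (-δ)) ∧
      ∑' v : PL S, (rad (α v) ^ 4) ^ 2 / (qq v.1 : ℝ) * (qq v.1 : ℝ) ^ (-δ) ≤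
        A * (1 + Real.log (1 / δ) + Real.log (cond κ Q)) := by
  obtain ⟨A1, hA1, H1⟩ := TT_le K 5 r
  obtain ⟨A3, hA3, H3⟩ := ZS_le K
  refine ⟨A3 + A1, by positivity, ?_⟩
  intro δ hδ hδ1 S α β κ Q h hU
  have hσ : 1 < 1 + δ := by linarith
  obtain ⟨s1, s2⟩ := sel_le h hσ (fun _ => 0)
  have s3 := summable_qq (S := S) (σ := 1 + δ) hσ
  have e : ∀ {M : ℕ} (γ : PL S → Fin M → ℂ) (v : PL S), trm γ (1 + δ) (v, 0) =
      ‖∑ i, γ v i‖ ^ 2 * (qq v.1 : ℝ) ^ (-(1 + δ)) := by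
    intro M γ v
    unfold trm cf
    simp
  have hk : ∀ v : PL S, (rad (α v) ^ 4) ^ 2 / (qq v.1 : ℝ) * (qq v.1 : ℝ) ^ (-δ) ≤
      (qq v.1 : ℝ) ^ (-(1 + δ)) + trm (fun v => sym4 (α v)) (1 + δ) (v, 0) := by
    intro v
    have hq := qq_pos v.1
    rw [e]
    have e1 : (rad (α v) ^ 4) ^ 2 / (qq v.1 : ℝ) * (qq v.1 : ℝ) ^ (-δ) =
        (rad (α v) ^ 4) ^ 2 * (qq v.1 : ℝ) ^ (-(1 + δ)) := by
      have : (qq v.1 : ℝ) ^ (-(1 + δ)) = (qq v.1 : ℝ)⁻¹ * (qq v.1 : ℝ) ^ (-δ) := by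
        rw [← Real.rpow_neg_one, ← Real.rpow_add hq]
        congr 1
        ring
      rw [this, div_eq_mul_inv, mul_assoc]
    rw [e1]
    have h1 := mul_le_mul_of_nonneg_right (rad2' (hU v))
      (show 0 ≤ (qq v.1 : ℝ) ^ (-(1 + δ)) by positivity)
    refine h1.trans (le_of_eq ?_)
    ring
  have s4 := s3.add s1
  have s5 : Summable (fun v : PL S => (rad (α v) ^ 4) ^ 2 / (qq v.1 : ℝ) * (qq v.1 : ℝ) ^ (-δ)) :=
    Summable.of_nonneg_of_le (fun v => by positivity) hk s4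
  refine ⟨s5, ?_⟩
  have hT := H1 δ hδ hδ1 S (fun v => sym4 (α v)) β κ Q h
  have hc := Real.log_nonneg (one_le_cond h)
  have h14 : 0 ≤ Real.log (1 / δ) := Real.log_nonneg (by rw [le_div_iff₀ hδ]; linarith)
  have hZ1 := (sum_PL_le (S := S) (σ := 1 + δ) hσ).trans (H3 δ hδ hδ1)
  calc _ ≤ ∑' v : PL S, ((qq v.1 : ℝ) ^ (-(1 + δ)) + trm (fun v => sym4 (α v)) (1 + δ) (v, 0)) :=
        s5.tsum_le_tsum hk s4
    _ = ∑' v : PL S, (qq v.1 : ℝ) ^ (-(1 + δ)) + ∑' v : PL S, trm (fun v => sym4 (α v)) (1 + δ) (v, 0) :=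
        s3.tsum_add s1
    _ ≤ A3 * (1 + Real.log (1 / δ)) + A1 * (1 + Real.log (1 / δ) + Real.log (cond κ Q)) :=
        add_le_add hZ1 (s2.trans hT)
    _ ≤ _ := by
      obtain ⟨y, hy⟩ : ∃ y : ℝ, y = Real.log (cond κ Q) := ⟨_, rfl⟩
      rw [← hy] at hc ⊢
      have a1 : 0 ≤ A3 * y := by positivity
      linarith [show (A3 + A1) * (1 + Real.log (1 / δ) + y) =
        A3 * (1 + Real.log (1 / δ)) + A3 * y + A1 * (1 + Real.log (1 / δ) + y) by ring]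

/-! ## the primes which divide the level -/

variable {K : Type*} [Field K] [NumberField K]

theorem prod_dvd {𝔫 : Ideal (𝓞 K)} {S : Finset (HeightOneSpectrum (𝓞 K))} (hS : ∀ v ∈ S, 𝔫 ≤ v.asIdeal) :
    ∏ v ∈ S, v.asIdeal ∣ 𝔫 := by
  classical
  have hinj : Set.InjOn (fun v : HeightOneSpectrum (𝓞 K) => v.asIdeal) S := by
    intro v _ w _ h
    exact HeightOneSpectrum.ext h
  have := Finset.prod_primes_dvd (s := S.image fun v : HeightOneSpectrum (𝓞 K) => v.asIdeal) 𝔫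
    (by
      intro a ha
      obtain ⟨v, _, rfl⟩ := Finset.mem_image.1 ha
      exact v.prime)
    (by
      intro a ha
      obtain ⟨v, hv, rfl⟩ := Finset.mem_image.1 ha
      exact Ideal.dvd_iff_le.2 (hS v hv))
  rwa [Finset.prod_image hinj] at this

theorem prod_qq_le {𝔫 : Ideal (𝓞 K)} (h0 : 𝔫 ≠ ⊥) {S : Finset (HeightOneSpectrum (𝓞 K))}
    (hS : ∀ v ∈ S, 𝔫 ≤ v.asIdeal) : ∏ v ∈ S, qq v ≤ Ideal.absNorm 𝔫 := by
  have h1 := map_dvd Ideal.absNorm (prod_dvd hS)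
  rw [map_prod] at h1
  exact Nat.le_of_dvd (Nat.pos_of_ne_zero (fun h => h0 (Ideal.absNorm_eq_zero_iff.1 h))) h1

theorem one_le_absNorm {𝔫 : Ideal (𝓞 K)} (h0 : 𝔫 ≠ ⊥) : (1 : ℝ) ≤ Ideal.absNorm 𝔫 := by
  have : 0 < Ideal.absNorm 𝔫 := Nat.pos_of_ne_zero (fun h => h0 (Ideal.absNorm_eq_zero_iff.1 h))
  exact_mod_cast this

theorem card_level {𝔫 : Ideal (𝓞 K)} (h0 : 𝔫 ≠ ⊥) {S : Finset (HeightOneSpectrum (𝓞 K))}
    (hS : ∀ v ∈ S, 𝔫 ≤ v.asIdeal) : (S.card : ℝ) ≤ 2 * (1 + Real.log (Ideal.absNorm 𝔫)) := by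
  have h1 : (2 : ℝ) ^ S.card ≤ Ideal.absNorm 𝔫 := by
    calc (2 : ℝ) ^ S.card = ∏ _v ∈ S, (2 : ℝ) := by simp
      _ ≤ ∏ v ∈ S, (qq v : ℝ) := Finset.prod_le_prod (fun _ _ => by norm_num) fun v _ => by
        exact_mod_cast two_le_qq v
      _ ≤ _ := by exact_mod_cast prod_qq_le h0 hS
  have h2 := Real.log_le_log (by positivity) h1
  rw [Real.log_pow] at h2
  have h3 : (1 / 2 : ℝ) < Real.log 2 := by
    have := Real.log_two_gt_d9
    linarith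
  have h4 : (0 : ℝ) ≤ S.card := Nat.cast_nonneg _
  nlinarith

/-! ## characters -/

/-- What is used of a nontrivial character `θ` of the Hecke algebra `𝕋_1(𝔫)` of weight `2`; `S` is the set of the
primes which divide `𝔫`, `a v = θ(T_v)` for the other primes. -/
structure WeightTwo (𝔫 : Ideal (𝓞 K)) (S : Finset (HeightOneSpectrum (𝓞 K))) (a : PL S → ℂ)
    (α : PL S → Fin 2 → ℂ) : Prop where
  ne : 𝔫 ≠ ⊥
  mem : ∀ v, v ∈ S ↔ 𝔫 ≤ v.asIdeal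
  /-- the Satake parameters -/
  trace : ∀ v, a v = ((qq v.1 : ℝ) ^ (1 / 2 : ℝ) : ℝ) * (α v 0 + α v 1)
  /-- the local components are unitary -/
  unitary : ∀ v, Unit' (α v)
  /-- the Rankin-Selberg `L`-function of the symmetric fourth power -/
  rs : ∃ (β : S → Fin (5 ^ 2) → ℂ) (κ : Fin (5 ^ 2 * Module.finrank ℚ K) → ℂ) (Q : ℝ),
    RankinSelberg 25 (fun v => sym4 (α v)) β κ Q ∧
    Q ^ 2 ≤ ((|discr K| : ℤ) * (Ideal.absNorm 𝔫 : ℝ)) ^ 25 ∧ ∀ j, ‖κ j‖ ≤ 5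

theorem norm_trace_le {𝔫 : Ideal (𝓞 K)} {S : Finset (HeightOneSpectrum (𝓞 K))} {a : PL S → ℂ}
    {α : PL S → Fin 2 → ℂ} (h : WeightTwo 𝔫 S a α) (v : PL S) :
    ‖a v‖ / (2 * (qq v.1 : ℝ) ^ (1 / 2 : ℝ)) ≤ rad (α v) := by
  have hq := qq_pos v.1
  rw [div_le_iff₀ (by positivity), h.trace, norm_mul, Complex.norm_real, Real.norm_eq_abs,
    abs_of_pos (by positivity)]
  have h1 := le_rad (α v) 0
  have h2 := le_rad (α v) 1
  have h3 := norm_add_le (α v 0) (α v 1)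
  calc (qq v.1 : ℝ) ^ (1 / 2 : ℝ) * ‖α v 0 + α v 1‖ ≤ (qq v.1 : ℝ) ^ (1 / 2 : ℝ) * (2 * rad (α v)) := by
        apply mul_le_mul_of_nonneg_left _ (by positivity)
        linarith
    _ = _ := by ring

/-- the conductor -/
theorem cond_w2 (K : Type*) [Field K] [NumberField K] : ∃ C : ℝ, 1 ≤ C ∧
    ∀ {𝔫 : Ideal (𝓞 K)} {κ : Fin (5 ^ 2 * Module.finrank ℚ K) → ℂ} {Q : ℝ}, 𝔫 ≠ ⊥ → 1 ≤ Q →
      Q ^ 2 ≤ ((|discr K| : ℤ) * (Ideal.absNorm 𝔫 : ℝ)) ^ 25 → (∀ j, ‖κ j‖ ≤ 5) →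
      Real.log (cond κ Q) ≤ C * (1 + Real.log (Ideal.absNorm 𝔫)) := by
  have hd0 : discr K ≠ 0 := discr_ne_zero K
  have hd : (1 : ℝ) ≤ ((|discr K| : ℤ) : ℝ) := by
    have : (1 : ℤ) ≤ |discr K| := Int.one_le_abs hd0
    exact_mod_cast this
  have hld := Real.log_nonneg hd
  have hl6 : 0 ≤ Real.log 6 := Real.log_nonneg (by norm_num)
  refine ⟨25 + 25 * Real.log ((|discr K| : ℤ) : ℝ) + (5 ^ 2 * Module.finrank ℚ K : ℕ) * Real.log 6, ?_, ?_⟩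
  · have : 0 ≤ ((5 ^ 2 * Module.finrank ℚ K : ℕ) : ℝ) * Real.log 6 := by positivity
    linarith
  · intro 𝔫 κ Q h0 hQ h1 h2
    have hN := one_le_absNorm h0
    have hlN := Real.log_nonneg hN
    have h3 : cond κ Q ≤ ((|discr K| : ℤ) * (Ideal.absNorm 𝔫 : ℝ)) ^ 25 * 6 ^ (5 ^ 2 * Module.finrank ℚ K) := by
      unfold cond
      refine mul_le_mul h1 ?_ (by positivity) (by positivity)
      calc ∏ j, (1 + ‖κ j‖) ≤ ∏ _j : Fin (5 ^ 2 * Module.finrank ℚ K), (6 : ℝ) :=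
            Finset.prod_le_prod (fun j _ => by positivity) fun j _ => by linarith [h2 j]
        _ = _ := by rw [Finset.prod_const, Finset.card_univ, Fintype.card_fin]
    have h4 : 0 < cond κ Q := by
      unfold cond
      have : 0 < Q := by linarith
      positivity
    have h5 := Real.log_le_log h4 h3
    have hd' : (0 : ℝ) < ((|discr K| : ℤ) : ℝ) := by linarith
    have hN' : (0 : ℝ) < (Ideal.absNorm 𝔫 : ℝ) := by linarith
    rw [Real.log_mul (by positivity) (by positivity), Real.log_pow, Real.log_pow,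
      Real.log_mul hd'.ne' hN'.ne'] at h5
    refine h5.trans ?_
    have a1 : 0 ≤ Real.log ((|discr K| : ℤ) : ℝ) * Real.log (Ideal.absNorm 𝔫) := mul_nonneg hld hlN
    have a2 : 0 ≤ ((5 ^ 2 * Module.finrank ℚ K : ℕ) : ℝ) * Real.log 6 * Real.log (Ideal.absNorm 𝔫) := by
      positivity
    have a3 : ((25 : ℕ) : ℝ) = 25 := by norm_num
    rw [a3]
    linarith [show (25 + 25 * Real.log ((|discr K| : ℤ) : ℝ) + (5 ^ 2 * Module.finrank ℚ K : ℕ) * Real.log 6) *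
        (1 + Real.log (Ideal.absNorm 𝔫)) =
        25 + 25 * Real.log (Ideal.absNorm 𝔫) + 25 * Real.log ((|discr K| : ℤ) : ℝ) +
        25 * (Real.log ((|discr K| : ℤ) : ℝ) * Real.log (Ideal.absNorm 𝔫)) +
        (5 ^ 2 * Module.finrank ℚ K : ℕ) * Real.log 6 +
        ((5 ^ 2 * Module.finrank ℚ K : ℕ) : ℝ) * Real.log 6 * Real.log (Ideal.absNorm 𝔫) by ring]

end Pool.Agent.TH829.RA
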